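import Mathlib

/-! Monotone Lipschitz functions of tables: shifts of one uniform coordinate. -/

namespace Pool.Agent.Lib.MP_a1e814_lc.Kh

open Finset Function
open scoped BigOperators

/-- value of a word -/
def vb {t : ℕ} (b : Fin t → Bool) : ℕ := ∑ r : Fin t, if b r then 2 ^ (r : ℕ) else 0

theorem expect_vb (t : ℕ) (h : ℕ → ℝ) :
    𝔼 b : Fin t → Bool, h (vb b) = (∑ v ∈ range (2 ^ t), h v) / 2 ^ t := by
  induction t generalizing h with
  | zero => simp [vb]
  | succ t ih =>
    have e : 𝔼 b : Fin (t + 1) → Bool, h (vb b)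
        = 𝔼 p : Bool × (Fin t → Bool), h (vb p.2 + if p.1 then 2 ^ t else 0) := by
      symm
      refine Fintype.expect_equiv (Fin.snocEquiv fun _ => Bool) _ _ fun p => ?_
      simp [vb, Fin.sum_univ_castSucc, Fin.snocEquiv]
    rw [e, ← univ_product_univ, expect_product, Fintype.expect_eq_sum_div_card]
    simp only [Fintype.univ_bool, mem_singleton, Bool.true_eq_false, not_false_eq_true, sum_insert,
      sum_singleton, if_true, Bool.false_eq_true, if_false, add_zero, Fintype.card_bool]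
    rw [ih h, ih fun v => h (v + 2 ^ t), pow_succ, mul_two, sum_range_add]
    simp only [add_comm (2 ^ t)]
    push_cast
    field_simp
    ring

theorem vb_lt {t : ℕ} (b : Fin t → Bool) : vb b < 2 ^ t := by
  induction t with
  | zero => simp [vb]
  | succ t ih =>
    have := ih fun r => b r.castSucc
    simp only [vb, Fin.sum_univ_castSucc, Fin.val_castSucc, Fin.val_last, pow_succ] at this ⊢
    split_ifs <;> omega

theorem vb_update {t : ℕ} (b : Fin t → Bool) (r : Fin t) :
    vb (update b r true) = vb (update b r false) + 2 ^ (r : ℕ) := by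
  unfold vb
  rw [← add_sum_erase _ _ (mem_univ r), ← add_sum_erase _ _ (mem_univ r)]
  rw [sum_congr rfl (s₁ := univ.erase r) (f := fun x => if update b r true x then 2 ^ (x : ℕ) else 0)
    (g := fun x => if update b r false x then 2 ^ (x : ℕ) else 0) fun x hx => by
      rw [update_of_ne (ne_of_mem_erase hx), update_of_ne (ne_of_mem_erase hx)]]
  simp [add_comm]

variable {ι : Type} [Fintype ι] [DecidableEq ι] {t : ℕ}

/-- value of the table entry `i` of a cube point -/
def val (w : ι × Fin t → Bool) (i : ι) : ℕ :=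
  ∑ r : Fin t, if w (i, r) then 2 ^ (r : ℕ) else 0

/-- replace the word of one entry -/
def upd (w : ι × Fin t → Bool) (i : ι) (b : Fin t → Bool) : ι × Fin t → Bool :=
  fun p => if p.1 = i then b p.2 else w p

omit [Fintype ι] [DecidableEq ι] in
theorem val_lt (w : ι × Fin t → Bool) (i : ι) : val w i < 2 ^ t := vb_lt fun r => w (i, r)

omit [Fintype ι] in
theorem val_upd (w : ι × Fin t → Bool) (i : ι) (b : Fin t → Bool) :
    val (upd w i b) = update (val w) i (vb b) := by
  funext k
  by_cases h : k = i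
  · subst h; simp [val, upd, vb]
  · simp [val, upd, h]

omit [Fintype ι] in
theorem update_upd (w : ι × Fin t → Bool) (i : ι) (b : Fin t → Bool) (r : Fin t) (x : Bool) :
    update (upd w i b) (i, r) x = upd w i (update b r x) := by
  funext ⟨k, s⟩
  by_cases h : k = i
  · subst h
    by_cases h2 : s = r
    · subst h2; simp [upd]
    · simp [upd, h2]
  · simp [upd, h]

theorem expect_upd (i : ι) (F : (ι × Fin t → Bool) → ℝ) :
    𝔼 w, F w = 𝔼 w, 𝔼 b : Fin t → Bool, F (upd w i b) := by
  have e1 : 𝔼 w, F w = 𝔼 p : (ι × Fin t → Bool) × (Fin t → Bool), F p.1 := by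
    rw [← univ_product_univ, expect_product]
    simp only [Fintype.expect_const]
  rw [e1, ← expect_product', univ_product_univ]
  symm
  refine Fintype.expect_bijective
    (fun p : (ι × Fin t → Bool) × (Fin t → Bool) => (upd p.1 i p.2, fun r => p.1 (i, r)))
    (Involutive.bijective fun p => ?_) _ _ fun p => rfl
  refine Prod.ext ?_ ?_
  · funext ⟨k, s⟩
    by_cases h : k = i
    · subst h; simp [upd]
    · simp [upd, h]
  · funext s; simp [upd]

theorem expect_val (i : ι) (F : (ι → ℕ) → ℝ) :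
    𝔼 w : ι × Fin t → Bool, F (val w)
      = 𝔼 w : ι × Fin t → Bool, (∑ v ∈ range (2 ^ t), F (update (val w) i v)) / 2 ^ t := by
  rw [expect_upd i]
  simp only [val_upd]
  exact expect_congr rfl fun w _ => expect_vb t fun v => F (update (val w) i v)

/-- indicator table of a set of entries -/
def one (S : Finset ι) : ι → ℕ := fun i => if i ∈ S then 1 else 0

theorem expect_shift (i : ι) (F : (ι → ℕ) → ℝ) :
    𝔼 w : ι × Fin t → Bool, (F (val w + one {i}) - F (val w))
      = 𝔼 w : ι × Fin t → Bool,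
        (F (update (val w) i (2 ^ t)) - F (update (val w) i 0)) / 2 ^ t := by
  rw [expect_val i fun c => F (c + one {i}) - F c]
  refine expect_congr rfl fun w _ => ?_
  congr 1
  rw [← sum_range_sub fun v => F (update (val w) i v)]
  refine sum_congr rfl fun v _ => ?_
  congr 2
  funext k
  by_cases h : k = i
  · subst h; simp [one]
  · simp [one, h]

theorem sum_shift_le {φ : ℕ → ℝ} {lo hi : ℝ} (h : ∀ v, lo ≤ φ v ∧ φ v ≤ hi) (T M : ℕ) :
    ∑ v ∈ range T, (φ (v + M) - φ v) ≤ M * (hi - lo) := by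
  have e1 := sum_range_add φ T M
  have e2 := sum_range_add φ M T
  have h1 : ∑ x ∈ range M, φ (T + x) ≤ M * hi := by
    simpa using sum_le_card_nsmul (range M) _ hi fun x _ => (h (T + x)).2
  have h2 : M * lo ≤ ∑ x ∈ range M, φ x := by
    simpa using card_nsmul_le_sum (range M) _ lo fun x _ => (h x).1
  rw [add_comm M T] at e2
  simp only [add_comm M] at e2
  rw [sum_sub_distrib]
  linarith

theorem bit_le {ψ : ℕ → ℝ} (hψ : ∀ u v, u ≤ v → v ≤ 2 ^ t → ψ u ≤ ψ v) (r : Fin t) :
    𝔼 b : Fin t → Bool, (ψ (vb (update b r true)) - ψ (vb (update b r false)))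
      ≤ 2 ^ ((r : ℕ) + 1) * ((ψ (2 ^ t) - ψ 0) / 2 ^ t) := by
  set φ : ℕ → ℝ := fun v => ψ (min (v - 2 ^ (r : ℕ)) (2 ^ t)) with hφ
  have h1 : ∀ b : Fin t → Bool, ψ (vb (update b r true)) - ψ (vb (update b r false))
      ≤ φ (vb b + 2 ^ ((r : ℕ) + 1)) - φ (vb b) := fun b => by
    have a1 := vb_update b r
    have a2 := vb_lt (update b r true)
    have a3 : vb b = vb (update b r true) ∨ vb b = vb (update b r false) := by
      cases hb : b r
      · right; rw [← hb, update_eq_self]
      · left; rw [← hb, update_eq_self]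
    refine sub_le_sub (hψ _ _ ?_ (min_le_right _ _))
      (hψ _ _ ?_ ((Nat.le_add_right _ _).trans (a1 ▸ a2.le)))
    · rw [pow_succ]
      generalize 2 ^ (r : ℕ) = m at *
      generalize 2 ^ t = T at *
      omega
    · generalize 2 ^ (r : ℕ) = m at *
      generalize 2 ^ t = T at *
      omega
  refine (expect_le_expect fun b _ => h1 b).trans ?_
  rw [expect_vb t fun v => φ (v + 2 ^ ((r : ℕ) + 1)) - φ v, ← mul_div_assoc]
  refine div_le_div_of_nonneg_right ?_ (by positivity)
  have := sum_shift_le (φ := φ) (lo := ψ 0) (hi := ψ (2 ^ t)) (fun v =>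
    ⟨hψ _ _ (Nat.zero_le _) (min_le_right _ _), hψ _ _ (min_le_right _ _) le_rfl⟩) (2 ^ t)
    (2 ^ ((r : ℕ) + 1))
  exact_mod_cast this

/-- monotone, and 1-Lipschitz in each entry, on the tables with values at most `2 ^ t` -/
structure ML (t : ℕ) (Φ : (ι → ℕ) → ℝ) : Prop where
  mono : ∀ c c' : ι → ℕ, c ≤ c' → (∀ k, c' k ≤ 2 ^ t) → Φ c ≤ Φ c'
  lip : ∀ (c : ι → ℕ) (i : ι) (m : ℕ), (∀ k, update c i (c i + m) k ≤ 2 ^ t) →
    Φ (update c i (c i + m)) ≤ Φ c + m

/-- mean increment when one entry grows by one -/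
noncomputable def pp (t : ℕ) (Φ : (ι → ℕ) → ℝ) (i : ι) : ℝ :=
  𝔼 w : ι × Fin t → Bool, (Φ (val w + one {i}) - Φ (val w))

variable {Φ : (ι → ℕ) → ℝ}

omit [Fintype ι] in
theorem add_one_eq (c : ι → ℕ) (i : ι) : c + one {i} = update c i (c i + 1) := by
  funext k
  by_cases h : k = i
  · subst h; simp [one]
  · simp [one, h]

omit [Fintype ι] in
theorem ML.step (h : ML t Φ) {c : ι → ℕ} {i : ι} (hc : ∀ k, (c + one {i}) k ≤ 2 ^ t) :
    0 ≤ Φ (c + one {i}) - Φ c ∧ Φ (c + one {i}) - Φ c ≤ 1 := by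
  have a1 := h.mono c (c + one {i}) (fun k => Nat.le_add_right _ _) hc
  rw [add_one_eq] at *
  have a2 := h.lip c i 1 hc
  push_cast at a2
  constructor <;> linarith

omit [Fintype ι] in
theorem val_add_one_le (w : ι × Fin t → Bool) (S : Finset ι) (k : ι) :
    (val w + one S) k ≤ 2 ^ t := by
  have := val_lt w k
  simp only [Pi.add_apply, one]
  split_ifs <;> omega

theorem ML.pp_nonneg (h : ML t Φ) (i : ι) : 0 ≤ pp t Φ i :=
  expect_nonneg fun w _ => (h.step (val_add_one_le w _)).1

omit [Fintype ι] in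
theorem val_update (w : ι × Fin t → Bool) (i : ι) (r : Fin t) (x : Bool) :
    val (update w (i, r) x) = update (val w) i (vb (update (fun s => w (i, s)) r x)) := by
  rw [← val_upd, ← update_upd]
  congr 2
  funext ⟨k, s⟩
  by_cases h : k = i
  · subst h; simp [upd]
  · simp [upd, h]

omit [Fintype ι] in
theorem update_le (w : ι × Fin t → Bool) (i : ι) {v : ℕ} (hv : v ≤ 2 ^ t) (k : ι) :
    update (val w) i v k ≤ 2 ^ t := by
  by_cases h : k = i
  · subst h; simpa using hv
  · simpa [h] using (val_lt w k).le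

omit [Fintype ι] in
theorem ML.d_bound (h : ML t Φ) (w : ι × Fin t → Bool) (i : ι) (r : Fin t) :
    0 ≤ Φ (val (update w (i, r) true)) - Φ (val (update w (i, r) false)) ∧
      Φ (val (update w (i, r) true)) - Φ (val (update w (i, r) false)) ≤ 2 ^ (r : ℕ) := by
  rw [val_update, val_update]
  have a1 := vb_update (fun s => w (i, s)) r
  have a2 := (vb_lt (update (fun s => w (i, s)) r true)).le
  rw [a1] at a2 ⊢
  generalize vb (update (fun s => w (i, s)) r false) = v at *
  have a3 := h.lip (update (val w) i v) i (2 ^ (r : ℕ)) (by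
    rw [update_idem, update_self]; exact update_le w i a2)
  rw [update_idem, update_self] at a3
  have a4 := h.mono (update (val w) i v) (update (val w) i (v + 2 ^ (r : ℕ)))
    (update_le_update_iff'.2 (Nat.le_add_right _ _)) (update_le w i a2)
  push_cast at a3
  constructor <;> linarith

/-- (A1) -/
theorem ML.d_le (h : ML t Φ) (i : ι) (r : Fin t) :
    𝔼 w : ι × Fin t → Bool, (Φ (val (update w (i, r) true)) - Φ (val (update w (i, r) false)))
      ≤ 2 ^ ((r : ℕ) + 1) * pp t Φ i := by
  rw [pp, expect_shift, expect_upd i, mul_expect]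
  refine expect_le_expect fun w _ => ?_
  simp only [update_upd, val_upd]
  exact bit_le (ψ := fun v => Φ (update (val w) i v)) (fun u v huv hv =>
    h.mono _ _ (update_le_update_iff'.2 huv) (update_le w i hv)) r

omit [Fintype ι] in
theorem one_insert {S : Finset ι} {k : ι} (hk : k ∉ S) : one (insert k S) = one {k} + one S := by
  funext j
  by_cases h : j = k
  · subst h; simp [one, hk]
  · simp [one, h]

theorem ML.shift_le (h : ML t Φ) {i : ι} (S : Finset ι) (hi : i ∉ S) :
    |𝔼 w : ι × Fin t → Bool, (Φ (val w + one S + one {i}) - Φ (val w + one S)) - pp t Φ i|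
      ≤ #S / 2 ^ t := by
  induction S using Finset.induction_on with
  | empty =>
    have : one (∅ : Finset ι) = 0 := by funext k; simp [one]
    simp [this, pp]
  | insert k S hk ih =>
    have hik : i ≠ k := fun e => hi (e ▸ mem_insert_self _ _)
    have hiS : i ∉ S := fun e => hi (mem_insert_of_mem e)
    have a1 := expect_shift (t := t) k fun c => Φ (c + one S + one {i}) - Φ (c + one S)
    have a2 : ∀ (w : ι × Fin t → Bool) (v : ℕ), v ≤ 2 ^ t → ∀ j,
        (update (val w) k v + one S + one {i}) j ≤ 2 ^ t := fun w v hv j => by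
      have := val_lt w j
      by_cases h1 : j = k
      · subst h1; simpa [one, hk, hik.symm] using hv
      · by_cases h2 : j = i
        · subst h2; simp [one, hiS, h1]; omega
        · simp only [Pi.add_apply, one, update_of_ne h1, mem_singleton, h2, if_false]
          split_ifs <;> omega
    have a3 : |𝔼 w : ι × Fin t → Bool,
        ((Φ (update (val w) k (2 ^ t) + one S + one {i}) - Φ (update (val w) k (2 ^ t) + one S))
          - (Φ (update (val w) k 0 + one S + one {i}) - Φ (update (val w) k 0 + one S))) / 2 ^ t|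
        ≤ 1 / 2 ^ t := by
      refine (abs_expect_le _ _).trans (expect_le univ_nonempty fun w _ => ?_)
      have b1 := h.step (a2 w _ le_rfl)
      have b2 := h.step (a2 w 0 (Nat.zero_le _))
      rw [abs_div, abs_of_pos (by positivity : (0 : ℝ) < 2 ^ t)]
      exact div_le_div_of_nonneg_right (abs_le.2 ⟨by linarith, by linarith⟩) (by positivity)
    rw [← a1, expect_sub_distrib] at a3
    rw [one_insert hk, card_insert_of_notMem hk]
    simp only [← add_assoc]
    push_cast
    rw [add_div]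
    have a4 := abs_le.1 (ih hiS)
    have a5 := abs_le.1 a3
    exact abs_le.2 ⟨by linarith, by linarith⟩

/-- (A2), telescoping -/
theorem ML.tele (h : ML t Φ) (S : Finset ι) :
    |𝔼 w : ι × Fin t → Bool, (Φ (val w + one S) - Φ (val w)) - ∑ i ∈ S, pp t Φ i|
      ≤ (#S : ℝ) ^ 2 / 2 ^ t := by
  induction S using Finset.induction_on with
  | empty =>
    have : one (∅ : Finset ι) = 0 := by funext k; simp [one]
    simp [this]
  | insert i S hi ih =>
    have a1 := abs_le.1 (h.shift_le S hi)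
    have a2 := abs_le.1 ih
    have a3 : (#S : ℝ) ^ 2 / 2 ^ t + #S / 2 ^ t ≤ ((#S : ℝ) + 1) ^ 2 / 2 ^ t := by
      rw [← add_div]
      exact div_le_div_of_nonneg_right (by nlinarith [Nat.cast_nonneg (α := ℝ) #S]) (by positivity)
    rw [one_insert hi, card_insert_of_notMem hi, sum_insert hi, add_comm (one {i})]
    simp only [← add_assoc, expect_sub_distrib] at a1 a2 ⊢
    push_cast
    exact abs_le.2 ⟨by linarith, by linarith⟩

section Win

variable {J V X Z : Type} [Fintype J] [DecidableEq J] [Fintype V] [DecidableEq V] [Fintype Z]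
  [DecidableEq Z]

/-- the sum over the windows -/
def GG (y : J → X → V) (c : J × V → ℕ) (x : X) : ℕ := ∑ j, c (j, y j x)

/-- monotone and 1-Lipschitz in the sup norm of the window sum on `A` -/
def Rel1 (t : ℕ) (A : Set X) (y : J → X → V) (Φ : (J × V → ℕ) → ℝ) : Prop :=
  ∀ (c c' : J × V → ℕ) (μ : ℕ), (∀ k, c k ≤ 2 ^ t) → (∀ k, c' k ≤ 2 ^ t) →
    (∀ x ∈ A, GG y c x ≤ GG y c' x + μ) → Φ c ≤ Φ c' + μ

variable {A : Set X} {y : J → X → V} {Φ : (J × V → ℕ) → ℝ}

omit [Fintype V] in
theorem Rel1.ml (h : Rel1 t A y Φ) : ML t Φ where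
  mono c c' hc hc' := by
    simpa using h c c' 0 (fun k => (hc k).trans (hc' k)) hc' fun x _ => sum_le_sum fun j _ => hc _
  lip c i m hc := by
    refine h _ c m hc (fun k => le_trans ?_ (hc k)) fun x _ => ?_
    · by_cases e : k = i
      · subst e; simp
      · simp [e]
    · calc GG y (update c i (c i + m)) x ≤ ∑ j, (c (j, y j x) + if j = i.1 then m else 0) :=
            sum_le_sum fun j _ => by
              by_cases e : (j, y j x) = i
              · subst e; simp
              · simp [e]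
        _ = _ := by simp [sum_add_distrib, GG]

/-- the entries of window `j` with a label in `S` -/
def fib (j : J) (S : Finset V) : Finset (J × V) := S.map ⟨fun a => (j, a), fun _ _ e => by simpa using e⟩

omit [Fintype V] in
theorem GG_fib (c : J × V → ℕ) (j : J) (S : Finset V) (x : X) :
    GG y (c + one (fib j S)) x = GG y c x + if y j x ∈ S then 1 else 0 := by
  simp only [GG, Pi.add_apply, sum_add_distrib]
  congr 1
  rw [sum_eq_single j]
  · simp [one, fib]
  · intro b _ hb; simp [one, fib, hb.symm]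
  · simp

theorem Rel1.fib_le (h : Rel1 t A y Φ) (j : J) (S : Finset V) :
    |𝔼 w : (J × V) × Fin t → Bool, (Φ (val w + one (fib j S)) - Φ (val w)) - ∑ a ∈ S, pp t Φ (j, a)|
      ≤ (#S : ℝ) ^ 2 / 2 ^ t := by
  simpa [fib] using h.ml.tele (fib j S)

/-- (A2), the common marginal of the nested windows -/
theorem Rel1.marg [Nonempty J] (h : Rel1 t A y Φ) (cl : V → Z)
    (hcl : ∀ j j', ∀ x ∈ A, cl (y j x) = cl (y j' x)) (hT : 3 * Fintype.card V ^ 2 ≤ 2 ^ t) :
    ∃ u : Z → ℝ, (∀ j z, ∑ a with cl a = z, pp t Φ (j, a) ≤ u z) ∧ ∑ z, u z ≤ 2 := by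
  obtain ⟨j0⟩ := ‹Nonempty J›
  refine ⟨fun z => ∑ a with cl a = z, pp t Φ (j0, a) + 2 * ((#{a | cl a = z} : ℝ) ^ 2 / 2 ^ t),
    fun j z => ?_, ?_⟩
  · have a1 := abs_le.1 (h.fib_le j {a | cl a = z})
    have a2 := abs_le.1 (h.fib_le j0 {a | cl a = z})
    have a3 : 𝔼 w : (J × V) × Fin t → Bool, (Φ (val w + one (fib j {a | cl a = z})) - Φ (val w))
        ≤ 𝔼 w : (J × V) × Fin t → Bool, (Φ (val w + one (fib j0 {a | cl a = z})) - Φ (val w)) :=
      expect_le_expect fun w _ => sub_le_sub_right (by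
        simpa using h _ _ 0 (val_add_one_le w (fib j {a | cl a = z}))
          (val_add_one_le w (fib j0 {a | cl a = z})) fun x hx => by
            simp [GG_fib, hcl j j0 x hx]) _
    linarith
  · have a1 := abs_le.1 (h.fib_le j0 univ)
    have a2 : 𝔼 w : (J × V) × Fin t → Bool, (Φ (val w + one (fib j0 univ)) - Φ (val w)) ≤ 1 :=
      expect_le univ_nonempty fun w _ => by
        have := h _ (val w) 1 (val_add_one_le w (fib j0 univ)) (fun k => (val_lt w k).le)
          fun x _ => by simp [GG_fib]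
        push_cast at this
        linarith
    have a3 : ∑ z, (#{a | cl a = z} : ℝ) ^ 2 ≤ (Fintype.card V : ℝ) ^ 2 := by
      refine (sum_sq_le_sq_sum_of_nonneg fun _ _ => Nat.cast_nonneg _).trans (le_of_eq ?_)
      congr 1
      exact_mod_cast (card_eq_sum_card_fiberwise (f := cl) (s := univ) (t := univ)
        fun _ _ => mem_univ _).symm
    have a4 : 3 * ((Fintype.card V : ℝ) ^ 2 / 2 ^ t) ≤ 1 := by
      rw [← mul_div_assoc, div_le_one (by positivity)]
      exact_mod_cast hT
    have a5 := div_le_div_of_nonneg_right a3 (by positivity : (0 : ℝ) ≤ 2 ^ t)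
    rw [sum_add_distrib, sum_fiberwise, ← mul_sum, ← sum_div]
    rw [card_univ] at a1
    linarith

/-- (A1) and (A2) in one statement -/
theorem Rel1.a12 [Nonempty J] (h : Rel1 t A y Φ) (cl : V → Z)
    (hcl : ∀ j j', ∀ x ∈ A, cl (y j x) = cl (y j' x)) (hT : 3 * Fintype.card V ^ 2 ≤ 2 ^ t) :
    (∀ (i : (J × V) × Fin t) (w : (J × V) × Fin t → Bool),
      0 ≤ Φ (val (update w i true)) - Φ (val (update w i false))) ∧
    (∀ (i : (J × V) × Fin t) (w : (J × V) × Fin t → Bool),
      Φ (val (update w i true)) - Φ (val (update w i false)) ≤ 2 ^ (i.2 : ℕ)) ∧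
    ∃ (p : J × V → ℝ) (u : Z → ℝ), (∀ i, 0 ≤ p i) ∧
      (∀ i (r : Fin t), 𝔼 w : (J × V) × Fin t → Bool,
        (Φ (val (update w (i, r) true)) - Φ (val (update w (i, r) false)))
          ≤ 2 ^ ((r : ℕ) + 1) * p i) ∧
      (∀ j z, ∑ a with cl a = z, p (j, a) ≤ u z) ∧ ∑ z, u z ≤ 2 := by
  obtain ⟨u, h1, h2⟩ := h.marg cl hcl hT
  exact ⟨fun i w => (h.ml.d_bound w i.1 i.2).1, fun i w => (h.ml.d_bound w i.1 i.2).2,
    pp t Φ, u, h.ml.pp_nonneg, h.ml.d_le, h1, h2⟩

end Win

section Yes

variable {I : Type} [Fintype I] [DecidableEq I]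

/-- sign of a bit -/
def s1 (b : Bool) : ℝ := if b then 1 else -1

theorem s1_not (b : Bool) : s1 (!b) = -s1 b := by cases b <;> simp [s1]

theorem s1_sq (b : Bool) : s1 b ^ 2 = 1 := by cases b <;> simp [s1]

theorem expect_flip (i : I) (F : (I → Bool) → ℝ) :
    𝔼 w, F w = 𝔼 w : I → Bool, F (Function.update w i (!w i)) := by
  symm
  refine Fintype.expect_bijective (fun w : I → Bool => Function.update w i (!w i))
    (Function.Involutive.bijective fun w => ?_) _ _ fun w => rfl
  funext j
  by_cases h : j = i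
  · subst h; simp
  · simp [h]

theorem expect_half (i : I) (F : (I → Bool) → ℝ) :
    𝔼 w, F w = 𝔼 w : I → Bool, (F w + F (Function.update w i (!w i))) / 2 := by
  have := expect_flip i F
  simp only [div_eq_mul_inv, ← expect_mul, expect_add_distrib]
  linarith

theorem moments (c : I → ℝ) (S : Finset I) :
    𝔼 w : I → Bool, (∑ i ∈ S, c i * s1 (w i)) ^ 2 = ∑ i ∈ S, c i ^ 2 ∧
    𝔼 w : I → Bool, (∑ i ∈ S, c i * s1 (w i)) ^ 4 ≤ 3 * (∑ i ∈ S, c i ^ 2) ^ 2 := by
  induction S using Finset.induction_on with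
  | empty => simp
  | insert i S hi ih =>
    obtain ⟨h2, h4⟩ := ih
    have e : ∀ w : I → Bool, ∑ j ∈ S, c j * s1 (Function.update w i (!w i) j)
        = ∑ j ∈ S, c j * s1 (w j) := fun w =>
      sum_congr rfl fun j hj => by
        rw [Function.update_of_ne (ne_of_mem_of_not_mem hj hi)]
    simp only [sum_insert hi]
    constructor
    · rw [expect_half i]
      simp only [e, Function.update_self, s1_not]
      rw [expect_congr rfl (g := fun w : I → Bool => c i ^ 2 + (∑ j ∈ S, c j * s1 (w j)) ^ 2)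
        fun w _ => by
          have := s1_sq (w i)
          generalize s1 (w i) = x at *
          generalize ∑ j ∈ S, c j * s1 (w j) = X
          linear_combination c i ^ 2 * this]
      rw [expect_add_distrib, Fintype.expect_const, h2]
    · rw [expect_half i]
      simp only [e, Function.update_self, s1_not]
      rw [expect_congr rfl (g := fun w : I → Bool => c i ^ 4
          + 6 * c i ^ 2 * (∑ j ∈ S, c j * s1 (w j)) ^ 2 + (∑ j ∈ S, c j * s1 (w j)) ^ 4)
        fun w _ => by
          have := s1_sq (w i)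
          generalize s1 (w i) = x at *
          generalize ∑ j ∈ S, c j * s1 (w j) = X
          linear_combination (c i ^ 4 * (x ^ 2 + 1) + 6 * c i ^ 2 * X ^ 2) * this]
      rw [expect_add_distrib, expect_add_distrib, Fintype.expect_const, ← mul_expect, h2]
      nlinarith [sq_nonneg (c i ^ 2)]

theorem abs_ge_poly {x q : ℝ} (hq : 0 < q) :
    3 / 4 / q * x ^ 2 - 1 / 16 / q ^ 3 * x ^ 4 ≤ |x| := by
  have h0 := abs_nonneg x
  rw [← sq_abs x, show x ^ 4 = |x| ^ 4 by rw [← abs_pow, abs_of_nonneg (by positivity)]]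
  generalize |x| = y at *
  obtain ⟨u, rfl⟩ : ∃ u, y = 2 * q * u := ⟨y / (2 * q), by field_simp⟩
  have hu : 0 ≤ u := by
    by_contra h
    have : 2 * q * u < 0 := mul_neg_of_pos_of_neg (by positivity) (not_le.1 h)
    linarith
  have e : 3 / 4 / q * (2 * q * u) ^ 2 - 1 / 16 / q ^ 3 * (2 * q * u) ^ 4
      = q * u * (3 * u - u ^ 3) := by field_simp; ring
  rw [e]
  have : 3 * u - u ^ 3 ≤ 2 := by nlinarith [mul_nonneg (sq_nonneg (u - 1)) (by linarith : 0 ≤ u + 2)]
  nlinarith [mul_nonneg hq.le hu]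

/-- Khintchine's lower bound with the constant `9 / 16`. -/
theorem khintchine (c : I → ℝ) :
    9 / 16 * √(∑ i, c i ^ 2) ≤ 𝔼 w : I → Bool, |∑ i, c i * s1 (w i)| := by
  have hs : 0 ≤ ∑ i, c i ^ 2 := sum_nonneg fun _ _ => sq_nonneg _
  rcases hs.eq_or_lt with h | h
  · rw [← h]
    simpa using expect_nonneg fun _ _ => abs_nonneg _
  obtain ⟨h2, h4⟩ := moments c univ
  have hq : 0 < √(∑ i, c i ^ 2) := Real.sqrt_pos.2 h
  have hq2 : √(∑ i, c i ^ 2) ^ 2 = ∑ i, c i ^ 2 := Real.sq_sqrt hs
  generalize √(∑ i, c i ^ 2) = q at *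
  rw [← hq2] at h2 h4
  refine le_trans ?_ (expect_le_expect fun w _ => abs_ge_poly hq)
  rw [expect_sub_distrib, ← mul_expect, ← mul_expect, h2]
  have := mul_le_mul_of_nonneg_left h4 (by positivity : 0 ≤ 1 / 16 / q ^ 3)
  have e1 : 3 / 4 / q * q ^ 2 = 3 / 4 * q := by field_simp
  have e2 : 1 / 16 / q ^ 3 * (3 * (q ^ 2) ^ 2) = 3 / 16 * q := by field_simp
  linarith

/-- two independent weighted sums of bits differ -/
theorem spread_ge (c : I → ℝ) :
    9 / 32 * √(∑ i, c i ^ 2) ≤ 𝔼 w : I → Bool, 𝔼 w' : I → Bool,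
      |∑ i, (if w i then c i else 0) - ∑ i, (if w' i then c i else 0)| := by
  rw [expect_comm]
  refine le_expect univ_nonempty fun w' _ => ?_
  generalize ∑ i, (if w' i then c i else 0) = b
  have e : ∀ w : I → Bool, ∑ i, (if w i then c i else 0)
      = (∑ i, c i * s1 (w i)) / 2 + (∑ i, c i) / 2 := fun w => by
    rw [← add_div, ← sum_add_distrib, sum_div]
    refine sum_congr rfl fun i _ => ?_
    cases w i <;> simp [s1]
  simp only [e]
  have h1 : 𝔼 w : I → Bool, |(∑ i, c i * s1 (w i)) / 2 + (∑ i, c i) / 2 - b|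
      = 𝔼 w : I → Bool, |-(∑ i, c i * s1 (w i)) / 2 + (∑ i, c i) / 2 - b| := by
    refine Fintype.expect_bijective (fun (w : I → Bool) x => !w x)
      (Function.Involutive.bijective fun w => by simp) _ _ fun w => ?_
    simp only [s1_not, mul_neg, sum_neg_distrib, neg_neg]
  have h2 : 𝔼 w : I → Bool, |∑ i, c i * s1 (w i)|
      ≤ 𝔼 w : I → Bool, (|(∑ i, c i * s1 (w i)) / 2 + (∑ i, c i) / 2 - b|
        + |-(∑ i, c i * s1 (w i)) / 2 + (∑ i, c i) / 2 - b|) := expect_le_expect fun w _ => by
    refine le_trans (le_of_eq ?_) (abs_sub _ _)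
    congr 1
    ring
  rw [expect_add_distrib, ← h1] at h2
  have := khintchine c
  linarith

theorem sum_four_pow (t : ℕ) : 3 * ∑ r : Fin t, ((2 : ℝ) ^ (r : ℕ)) ^ 2 = (2 ^ t) ^ 2 - 1 := by
  induction t with
  | zero => simp
  | succ t ih => rw [Fin.sum_univ_castSucc]; simp only [Fin.val_castSucc, Fin.val_last]; linear_combination ih

/-- the sums over the windows of two independent tables at the same point -/
theorem yes_spread {J V : Type} [Fintype J] [DecidableEq J] [Fintype V] [DecidableEq V]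
    (ht : 0 < t) (a : J → V) :
    2 ^ t * √(Fintype.card J) / 8 ≤ 𝔼 w : (J × V) × Fin t → Bool, 𝔼 w' : (J × V) × Fin t → Bool,
      |((∑ j, val w (j, a j) : ℕ) : ℝ) - ((∑ j, val w' (j, a j) : ℕ) : ℝ)| := by
  have e : ∀ w : (J × V) × Fin t → Bool, ((∑ j, val w (j, a j) : ℕ) : ℝ)
      = ∑ i, if w i then (if i.1.2 = a i.1.1 then (2 : ℝ) ^ (i.2 : ℕ) else 0) else 0 := fun w => by
    simp only [Fintype.sum_prod_type, val]
    push_cast
    refine sum_congr rfl fun j _ => ?_
    rw [sum_eq_single (a j)]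
    · simp
    · intro b _ hb; simp [hb]
    · simp
  simp only [e]
  refine le_trans ?_ (spread_ge _)
  have e2 : ∑ i : (J × V) × Fin t, (if i.1.2 = a i.1.1 then (2 : ℝ) ^ (i.2 : ℕ) else 0) ^ 2
      = Fintype.card J * ∑ r : Fin t, ((2 : ℝ) ^ (r : ℕ)) ^ 2 := by
    simp only [Fintype.sum_prod_type]
    rw [← nsmul_eq_mul, ← card_univ, ← sum_const]
    refine sum_congr rfl fun j _ => ?_
    rw [sum_eq_single (a j)]
    · simp
    · intro b _ hb; simp [hb]
    · simp
  rw [e2]
  have h2 : (2 : ℝ) ≤ 2 ^ t := by simpa using pow_le_pow_right₀ (one_le_two (α := ℝ)) ht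
  have h3 : (2 : ℝ) ^ t / 2 ≤ √(∑ r : Fin t, ((2 : ℝ) ^ (r : ℕ)) ^ 2) :=
    Real.le_sqrt_of_sq_le (by have := sum_four_pow t; nlinarith)
  rw [Real.sqrt_mul (Nat.cast_nonneg _)]
  have h4 := Real.sqrt_nonneg (Fintype.card J : ℝ)
  nlinarith [mul_le_mul_of_nonneg_left h3 h4, mul_nonneg h4 (by positivity : (0 : ℝ) ≤ 2 ^ t)]

end Yes

end Pool.Agent.Lib.MP_a1e814_lc.Kh
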