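import Pool.Agent.Lib.MP_a1e814_lc.E.TalK
import Pool.Agent.Lib.MP_4d0379_lc.Four

/-! First level coefficients: moves and the collision bound. -/

set_option linter.unusedSectionVars false

namespace Pool.Agent.Lib.MP_a1e814_lc.Ds

open Finset Function Pool.Agent.Lib.MP_4d0379_lc
open scoped BigOperators

variable {ι : Type} [Fintype ι] [DecidableEq ι]

/-- first level coefficient -/
noncomputable def cf (f : (ι → Bool) → ℝ) (i : ι) : ℝ := 𝔼 x, f x * sg (x i)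

/-- mean discrete derivative -/
noncomputable def md (f : (ι → Bool) → ℝ) (i : ι) : ℝ :=
  𝔼 x, (f (update x i true) - f (update x i false))

theorem cf_eq (f : (ι → Bool) → ℝ) (i : ι) : cf f i = -(md f i / 2) := by
  unfold cf md
  rw [← tk_unif, ← tk_unif, ← Ex_av tk_prob i]
  have : av (1 / 2) i (fun x => f x * sg (x i))
      = fun x => (-(1 / 2)) * (f (update x i true) - f (update x i false)) := by
    funext x
    simp only [av_apply, update_self, sg]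
    norm_num
    ring
  rw [this, Ex_mul]
  ring

theorem cf_sq (f : (ι → Bool) → ℝ) (i : ι) : cf f i ^ 2 = md f i ^ 2 / 4 := by
  rw [cf_eq]; ring

theorem cf_bessel (f : (ι → Bool) → ℝ) : ∑ i, cf f i ^ 2 ≤ 𝔼 x, f x ^ 2 := by
  rw [← parseval]
  have : ∑ i, cf f i ^ 2 = ∑ S ∈ univ.map ⟨fun i : ι => ({i} : Finset ι), singleton_injective⟩,
      fc f S ^ 2 := by
    rw [sum_map]
    simp [cf, fc, chi]
  rw [this]
  exact sum_le_sum_of_subset_of_nonneg (subset_univ _) fun _ _ _ => sq_nonneg _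

theorem cf_sub (f g : (ι → Bool) → ℝ) (i : ι) : cf f i - cf g i = cf (fun x => f x - g x) i := by
  simp only [cf, sub_mul, expect_sub_distrib]

theorem cf_near {f g : (ι → Bool) → ℝ} {L : ℝ} (h : ∀ x, |f x - g x| ≤ L) :
    ∑ i, (cf f i - cf g i) ^ 2 ≤ L ^ 2 := by
  simp only [cf_sub]
  refine (cf_bessel _).trans (expect_le univ_nonempty fun x _ => ?_)
  rw [← sq_abs]
  exact pow_le_pow_left₀ (abs_nonneg _) (h x) 2

theorem cf_relabel {κ : Type} [Fintype κ] [DecidableEq κ] (e : ι ≃ κ) (g : (κ → Bool) → ℝ) (i : ι) :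
    cf (fun x : ι → Bool => g fun k => x (e.symm k)) i = cf g (e i) :=
  Fintype.expect_equiv (e.arrowCongr (Equiv.refl Bool)) _ _ fun x => by
    have : (e.arrowCongr (Equiv.refl Bool)) x = fun k => x (e.symm k) := rfl
    simp only [this, Equiv.symm_apply_apply]

theorem sq_move {a b : ι → ℝ} {L N : ℝ} (hL : 0 ≤ L) (hN : 0 ≤ N) (h : ∑ i, (a i - b i) ^ 2 ≤ L ^ 2)
    (ha : ∑ i, a i ^ 2 ≤ N) (hb : ∑ i, b i ^ 2 ≤ N) : ∑ i, |a i ^ 2 - b i ^ 2| ≤ 2 * L * √N := by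
  have h1 := sum_mul_sq_le_sq_mul_sq univ (fun i => |a i - b i|) fun i => |a i + b i|
  simp only [sq_abs, ← abs_mul] at h1
  have h2 : ∑ i, (a i + b i) ^ 2 ≤ 4 * N := by
    have : ∑ i, (a i + b i) ^ 2 ≤ ∑ i, (2 * a i ^ 2 + 2 * b i ^ 2) :=
      sum_le_sum fun i _ => by nlinarith [sq_nonneg (a i - b i)]
    rw [sum_add_distrib, ← mul_sum, ← mul_sum] at this
    linarith
  have h3 := h1.trans (mul_le_mul h h2 (sum_nonneg fun _ _ => sq_nonneg _) (sq_nonneg _))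
  have e : ∀ i, a i ^ 2 - b i ^ 2 = (a i - b i) * (a i + b i) := fun i => by ring
  simp only [e]
  refine abs_le_of_sq_le_sq' ?_ (by positivity) |>.2
  rw [mul_pow, Real.sq_sqrt hN]
  linarith

/-- class sums move by little -/
theorem class_move {Z : Type} [Fintype Z] [DecidableEq Z] (cl : ι → Z) (a b : ι → ℝ) :
    ∑ z, |∑ i with cl i = z, a i - ∑ i with cl i = z, b i| ≤ ∑ i, |a i - b i| := by
  rw [← sum_fiberwise univ cl fun i => |a i - b i|]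
  refine sum_le_sum fun z _ => ?_
  rw [← sum_sub_distrib]
  exact abs_sum_le_sum_abs _ _

/-- the move bound with a relabelling of the cube -/
theorem cf_move {Z : Type} [Fintype Z] [DecidableEq Z] (cl : ι → Z) (e : ι ≃ ι)
    (he : ∀ i, cl (e i) = cl i) {f g : (ι → Bool) → ℝ} {L N : ℝ} (hN : 0 < N)
    (h : ∀ x : ι → Bool, |g (fun k => x (e.symm k)) - f x| ≤ L)
    (hf : ∑ i, cf f i ^ 2 ≤ N) (hg : ∑ i, cf g i ^ 2 ≤ N) :
    ∑ z, |∑ i with cl i = z, cf g i ^ 2 / N - ∑ i with cl i = z, cf f i ^ 2 / N|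
      ≤ 2 * L / √N := by
  have hL : 0 ≤ L := (abs_nonneg _).trans (h fun _ => true)
  have h1 := cf_near h
  simp only [cf_relabel] at h1
  have h2 := sq_move hL hN.le h1 ((e.sum_comp fun i => cf g i ^ 2).trans_le hg) hf
  have h3 : ∀ z, ∑ i with cl i = z, cf g i ^ 2 / N = ∑ i with cl i = z, cf g (e i) ^ 2 / N :=
    fun z => (sum_equiv e (fun i => by simp [he]) fun _ _ => rfl).symm
  simp only [h3]
  refine (class_move cl _ _).trans ?_
  simp only [← sub_div, abs_div, abs_of_pos hN, ← sum_div]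
  rw [div_le_div_iff₀ hN (Real.sqrt_pos.2 hN)]
  have := mul_le_mul_of_nonneg_right h2 (Real.sqrt_nonneg N)
  rwa [mul_assoc, Real.mul_self_sqrt hN.le] at this

theorem spread_sq {Ω : Type} [Fintype Ω] [Nonempty Ω] (f : Ω → ℝ) :
    (𝔼 x, 𝔼 y, |f x - f y|) ^ 2 ≤ 2 * 𝔼 x, (f x - 𝔼 y, f y) ^ 2 := by
  refine (sq_expect_le _).trans ((expect_le_expect fun x _ => sq_expect_le _).trans (le_of_eq ?_))
  set m := 𝔼 y, f y with hm
  have e : ∀ x y, |f x - f y| ^ 2 = (f x - m) ^ 2 + (f y - m) ^ 2 - 2 * (f x - m) * (f y - m) :=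
    fun x y => by rw [sq_abs]; ring
  have z : 𝔼 y, (f y - m) = 0 := by
    rw [expect_sub_distrib, expect_const univ_nonempty, hm, sub_self]
  simp only [e, expect_sub_distrib, expect_add_distrib, expect_const univ_nonempty, ← mul_expect, z,
    mul_zero, sub_zero]
  ring

theorem var_le {f : (ι → Bool) → ℝ} {w : ι → ℝ}
    (d0 : ∀ i x, 0 ≤ f (update x i true) - f (update x i false))
    (d1 : ∀ i x, f (update x i true) - f (update x i false) ≤ w i) :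
    𝔼 x, (f x - 𝔼 y, f y) ^ 2 ≤ (∑ i, w i * md f i) / 4 := by
  have hp := tk_prob
  have b9 := poincare hp univ f
  have c1 : cond (1 / 2) univ f = fun _ => 𝔼 y, f y := by
    funext x
    rw [cond_univ, tk_unif]
  rw [c1, ip, tk_unif] at b9
  simp only [Pi.sub_apply, ← sq] at b9
  refine b9.trans ?_
  rw [sum_div]
  refine sum_le_sum fun a _ => ?_
  rw [md, ← tk_unif, ← Ex_mul, div_eq_inv_mul _ (4 : ℝ), ← Ex_mul]
  refine Ex_mono hp fun x => ?_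
  rw [← abs_mul_abs_self, tk_sub_av, dd_apply, abs_of_nonneg (d0 a x)]
  nlinarith [d0 a x, d1 a x]

theorem md_nonneg {f : (ι → Bool) → ℝ}
    (d0 : ∀ i x, 0 ≤ f (update x i true) - f (update x i false)) (i : ι) : 0 ≤ md f i :=
  expect_nonneg fun x _ => d0 i x

theorem sum_cf_le {f : (ι → Bool) → ℝ} {w : ι → ℝ}
    (d0 : ∀ i x, 0 ≤ f (update x i true) - f (update x i false))
    (d1 : ∀ i x, f (update x i true) - f (update x i false) ≤ w i) :
    ∑ i, cf f i ^ 2 ≤ (∑ i, w i * md f i) / 4 := by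
  rw [sum_div]
  refine sum_le_sum fun i _ => ?_
  have h1 : md f i ≤ w i := expect_le univ_nonempty fun x _ => d1 i x
  rw [cf_sq]
  nlinarith [md_nonneg d0 i]

theorem holder3 {Z : Type} [Fintype Z] {F u : Z → ℝ} (F0 : ∀ z, 0 ≤ F z) (u0 : ∀ z, 0 ≤ u z)
    (h : ∀ z, F z ≤ u z ^ 2) (hu : ∑ z, u z ≤ 2) : (∑ z, F z) ^ 3 ≤ 4 * ∑ z, F z ^ 2 := by
  have s1 : ∑ z, √(F z) ≤ 2 := (sum_le_sum fun z _ => Real.sqrt_le_iff.2 ⟨u0 z, h z⟩).trans hu
  have a1 : (∑ z, F z) ^ 2 ≤ (∑ z, √(F z)) * ∑ z, F z * √(F z) :=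
    sum_sq_le_sum_mul_sum_of_sq_le_mul _ (fun _ _ => Real.sqrt_nonneg _)
      (fun z _ => mul_nonneg (F0 z) (Real.sqrt_nonneg _)) fun z _ => by
        rw [mul_left_comm, Real.mul_self_sqrt (F0 z), sq]
  have a2 : (∑ z, F z * √(F z)) ^ 2 ≤ (∑ z, F z) * ∑ z, F z ^ 2 :=
    sum_sq_le_sum_mul_sum_of_sq_le_mul _ (fun z _ => F0 z) (fun _ _ => sq_nonneg _) fun z _ => by
      rw [mul_pow, Real.sq_sqrt (F0 z), mul_comm]
  have p0 : 0 ≤ ∑ z, F z := sum_nonneg fun z _ => F0 z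
  have q0 : 0 ≤ ∑ z, F z * √(F z) := sum_nonneg fun z _ => mul_nonneg (F0 z) (Real.sqrt_nonneg _)
  have a3 := pow_le_pow_left₀ (sq_nonneg _) (a1.trans (mul_le_mul_of_nonneg_right s1 q0)) 2
  rcases p0.eq_or_lt with h0 | h0
  · rw [← h0]
    have : 0 ≤ ∑ z, F z ^ 2 := sum_nonneg fun _ _ => sq_nonneg _
    norm_num [this]
  · exact le_of_mul_le_mul_left (by nlinarith) h0

/-- the collision bound, abstract form -/
theorem coll_abs {δ : ℝ} (hδ : 0 < δ) : ∃ c > 0, ∀ (ι Z : Type) [Fintype ι] [DecidableEq ι]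
    [Fintype Z] [DecidableEq Z] (f : (ι → Bool) → ℝ) (w : ι → ℝ) (cl : ι → Z) (u : Z → ℝ) (N : ℝ),
    0 < N → (∀ i x, 0 ≤ f (update x i true) - f (update x i false)) →
    (∀ i x, f (update x i true) - f (update x i false) ≤ w i) →
    ∑ i, w i * md f i ≤ 4 / 3 * N → (∀ z, 0 ≤ u z) → ∑ z, u z ≤ 2 →
    (∀ z, ∑ i with cl i = z, cf f i ^ 2 / N ≤ u z ^ 2) →
    δ * √N ≤ 𝔼 x, 𝔼 y, |f x - f y| → c ≤ ∑ z, (∑ i with cl i = z, cf f i ^ 2 / N) ^ 2 := by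
  obtain ⟨κ, k0, hk⟩ := talK (v := 3 / 8 * δ ^ 2) (by positivity)
  refine ⟨(κ / 3) ^ 3 / 4, by positivity, fun ι Z _ _ _ _ f w cl u N N0 d0 d1 hB u0 u1 hu hs => ?_⟩
  have h1 := (pow_le_pow_left₀ (by positivity) hs 2).trans (spread_sq f)
  rw [mul_pow, Real.sq_sqrt N0.le] at h1
  have h2 := hk ι f w (4 / 3 * N) d0 d1 hB (by linarith)
  have h3 := holder3 (fun z => sum_nonneg fun _ _ => by positivity) u0 hu u1
  rw [sum_fiberwise univ cl fun i => cf f i ^ 2 / N] at h3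
  have h4 : κ / 3 ≤ ∑ i, cf f i ^ 2 / N := by
    simp only [cf_sq, ← sum_div]
    rw [le_div_iff₀ N0]
    have : ∑ i, md f i ^ 2 = ∑ i, (𝔼 x, (f (update x i true) - f (update x i false))) ^ 2 := rfl
    linarith
  have h5 := pow_le_pow_left₀ (by positivity) h4 3
  linarith

theorem geo4 (t : ℕ) : ∑ r : Fin t, ((2 : ℝ) ^ (r : ℕ)) ^ 2 ≤ ((2 : ℝ) ^ t) ^ 2 / 3 := by
  induction t with
  | zero => simp
  | succ t ih =>
    rw [Fin.sum_univ_castSucc]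
    simp only [Fin.val_castSucc, Fin.val_last]
    rw [pow_succ 2 t, mul_pow]
    linarith

section Conc

variable {J V Z : Type} [Fintype J] [DecidableEq J] [Fintype V] [DecidableEq V] [Fintype Z]
  [DecidableEq Z] {t : ℕ} {f : ((J × V) × Fin t → Bool) → ℝ} {cl : V → Z} {p : J × V → ℝ}
  {u : Z → ℝ}

theorem conc_B (hp : ∀ i r, md f (i, r) ≤ 2 ^ ((r : ℕ) + 1) * p i)
    (hs : ∀ j, ∑ a, p (j, a) ≤ 2) :
    ∑ i : (J × V) × Fin t, (2 : ℝ) ^ (i.2 : ℕ) * md f i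
      ≤ 4 / 3 * (Fintype.card J * ((2 : ℝ) ^ t) ^ 2) := by
  have h1 : ∑ i : (J × V) × Fin t, (2 : ℝ) ^ (i.2 : ℕ) * md f i
      ≤ ∑ i : (J × V) × Fin t, 2 * p i.1 * ((2 : ℝ) ^ (i.2 : ℕ)) ^ 2 :=
    sum_le_sum fun i _ => (mul_le_mul_of_nonneg_left (hp i.1 i.2) (by positivity)).trans
      (le_of_eq (by ring))
  refine h1.trans ?_
  rw [Fintype.sum_prod_type]
  simp only [← mul_sum]
  rw [← sum_mul, ← mul_sum, Fintype.sum_prod_type]
  have h2 : ∑ j, ∑ a, p (j, a) ≤ Fintype.card J * 2 :=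
    (sum_le_sum fun j _ => hs j).trans (by simp)
  have h3 := geo4 t
  have h4 : 0 ≤ ∑ r : Fin t, ((2 : ℝ) ^ (r : ℕ)) ^ 2 := by positivity
  have h5 := mul_le_mul h2 h3 h4 (by positivity)
  linarith

theorem conc_u [Nonempty J] (d0 : ∀ i x, 0 ≤ f (update x i true) - f (update x i false))
    (p0 : ∀ i, 0 ≤ p i) (hp : ∀ i r, md f (i, r) ≤ 2 ^ ((r : ℕ) + 1) * p i)
    (hu : ∀ j z, ∑ a with cl a = z, p (j, a) ≤ u z) (z : Z) :
    ∑ i : (J × V) × Fin t with cl i.1.2 = z,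
      cf f i ^ 2 / (Fintype.card J * ((2 : ℝ) ^ t) ^ 2) ≤ u z ^ 2 := by
  have hJ : (0 : ℝ) < Fintype.card J := Nat.cast_pos.2 Fintype.card_pos
  rw [← sum_div, div_le_iff₀ (by positivity)]
  have h1 : ∑ i : (J × V) × Fin t with cl i.1.2 = z, cf f i ^ 2
      ≤ ∑ i : (J × V) × Fin t with cl i.1.2 = z, p i.1 ^ 2 * ((2 : ℝ) ^ (i.2 : ℕ)) ^ 2 :=
    sum_le_sum fun i _ => by
      have := pow_le_pow_left₀ (md_nonneg d0 i) (hp i.1 i.2) 2
      rw [cf_sq]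
      rw [pow_succ 2] at this
      nlinarith
  refine h1.trans ?_
  rw [sum_filter, Fintype.sum_prod_type, Fintype.sum_prod_type]
  have h2 : ∀ j, ∑ a, ∑ r : Fin t, (if cl a = z then p (j, a) ^ 2 * ((2 : ℝ) ^ (r : ℕ)) ^ 2 else 0)
      ≤ u z ^ 2 * ((2 : ℝ) ^ t) ^ 2 := fun j => by
    have h3 : ∑ a with cl a = z, p (j, a) ^ 2 ≤ u z ^ 2 :=
      (sum_sq_le_sq_sum_of_nonneg fun a _ => p0 _).trans
        (pow_le_pow_left₀ (sum_nonneg fun a _ => p0 _) (hu j z) 2)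
    have h4 : ∑ r : Fin t, ((2 : ℝ) ^ (r : ℕ)) ^ 2 ≤ ((2 : ℝ) ^ t) ^ 2 := by
      have := geo4 t
      have : (0 : ℝ) ≤ ((2 : ℝ) ^ t) ^ 2 := by positivity
      linarith
    refine le_trans (le_of_eq ?_) (mul_le_mul h3 h4 (by positivity) (sq_nonneg _))
    rw [sum_filter, sum_mul]
    refine sum_congr rfl fun a _ => ?_
    split_ifs
    · rw [mul_sum]
    · simp
  refine (sum_le_sum fun j _ => h2 j).trans (le_of_eq ?_)
  simp only [sum_const, card_univ, nsmul_eq_mul]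
  ring

theorem conc_s (hu : ∀ j z, ∑ a with cl a = z, p (j, a) ≤ u z) (u1 : ∑ z, u z ≤ 2) (j : J) :
    ∑ a, p (j, a) ≤ 2 := by
  rw [← sum_fiberwise univ cl]
  exact (sum_le_sum fun z _ => hu j z).trans u1

end Conc

/-- the collision bound for tables written in binary -/
theorem coll_conc {δ : ℝ} (hδ : 0 < δ) : ∃ c > 0, ∀ (J V Z : Type) [Fintype J] [DecidableEq J]
    [Nonempty J] [Fintype V] [DecidableEq V] [Fintype Z] [DecidableEq Z] (t : ℕ)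
    (f : ((J × V) × Fin t → Bool) → ℝ) (cl : V → Z) (p : J × V → ℝ) (u : Z → ℝ),
    (∀ i x, 0 ≤ f (update x i true) - f (update x i false)) →
    (∀ i x, f (update x i true) - f (update x i false) ≤ 2 ^ (i.2 : ℕ)) →
    (∀ i, 0 ≤ p i) → (∀ i r, md f (i, r) ≤ 2 ^ ((r : ℕ) + 1) * p i) →
    (∀ j z, ∑ a with cl a = z, p (j, a) ≤ u z) → ∑ z, u z ≤ 2 →
    δ * (2 ^ t * √(Fintype.card J)) ≤ 𝔼 x, 𝔼 y, |f x - f y| →
    c ≤ ∑ z, (∑ i : (J × V) × Fin t with cl i.1.2 = z,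
      cf f i ^ 2 / (Fintype.card J * ((2 : ℝ) ^ t) ^ 2)) ^ 2 := by
  obtain ⟨c, c0, h⟩ := coll_abs hδ
  refine ⟨c, c0, fun J V Z _ _ _ _ _ _ _ t f cl p u d0 d1 p0 hp hu u1 hs => ?_⟩
  have hJ : (0 : ℝ) < Fintype.card J := Nat.cast_pos.2 Fintype.card_pos
  obtain ⟨j⟩ := ‹Nonempty J›
  refine h _ Z f (fun i => 2 ^ (i.2 : ℕ)) (fun i => cl i.1.2) u _ (by positivity) d0 d1
    (conc_B hp (conc_s hu u1)) (fun z => (sum_nonneg fun a _ => p0 _).trans (hu j z)) u1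
    (conc_u d0 p0 hp hu) ?_
  rwa [Real.sqrt_mul hJ.le, Real.sqrt_sq (by positivity), mul_comm (√_)]

end Pool.Agent.Lib.MP_a1e814_lc.Ds
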