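import Pool.Agent.Lib.MP_a1e814_lc.E.A45

/-! Class maps depending on the window. -/

set_option linter.unusedSectionVars false

namespace Pool.Agent.Lib.MP_a1e814_lc.Ds

open Finset Function Pool.Agent.Lib.MP_4d0379_lc
open scoped BigOperators

theorem class_move2 {ι Z : Type} [Fintype ι] [Fintype Z] [DecidableEq Z] (cl cl' : ι → Z)
    (P : ι → Prop) [DecidablePred P] (h : ∀ i, ¬ P i → cl i = cl' i) {a b : ι → ℝ}
    (a0 : ∀ i, 0 ≤ a i) (b0 : ∀ i, 0 ≤ b i) :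
    ∑ z, |∑ i with cl i = z, a i - ∑ i with cl' i = z, b i|
      ≤ ∑ i, |a i - b i| + ∑ i with P i, a i + ∑ i with P i, b i := by
  simp only [sum_filter, ← sum_sub_distrib, ← sum_add_distrib]
  refine (sum_le_sum fun z _ => abs_sum_le_sum_abs _ _).trans ?_
  rw [sum_comm]
  refine sum_le_sum fun i _ => ?_
  by_cases hP : P i
  · have : ∀ z, |(if cl i = z then a i else 0) - if cl' i = z then b i else 0|
        ≤ (if cl i = z then a i else 0) + if cl' i = z then b i else 0 := fun z => by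
      refine (abs_sub _ _).trans (le_of_eq ?_)
      rw [abs_of_nonneg (by split_ifs; exacts [a0 i, le_rfl]),
        abs_of_nonneg (by split_ifs; exacts [b0 i, le_rfl])]
    refine (sum_le_sum fun z _ => this z).trans ?_
    rw [sum_add_distrib, sum_ite_eq, sum_ite_eq]
    simp only [mem_univ, if_true, hP]
    linarith [abs_nonneg (a i - b i)]
  · have : ∀ z, |(if cl i = z then a i else 0) - if cl' i = z then b i else 0|
        = if cl i = z then |a i - b i| else 0 := fun z => by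
      rw [← h i hP]
      split_ifs <;> simp
    simp only [this, sum_ite_eq, mem_univ, if_true, hP, if_false, add_zero, le_refl]

section Conc

variable {J V Z : Type} [Fintype J] [DecidableEq J] [Fintype V] [DecidableEq V] [Fintype Z]
  [DecidableEq Z] {t : ℕ} {f g : ((J × V) × Fin t → Bool) → ℝ} {cl : J × V → Z} {p q : J × V → ℝ}
  {u : Z → ℝ}

/-- energy of a set of entries inside one window -/
theorem conc_row (d0 : ∀ i x, 0 ≤ f (update x i true) - f (update x i false))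
    (p0 : ∀ i, 0 ≤ p i) (hp : ∀ i r, md f (i, r) ≤ 2 ^ ((r : ℕ) + 1) * p i) (j : J) (P : V → Prop)
    [DecidablePred P] {s : ℝ} (hs : ∑ a with P a, p (j, a) ≤ s) :
    ∑ a, ∑ r : Fin t, (if P a then cf f ((j, a), r) ^ 2 else 0) ≤ s ^ 2 * (((2 : ℝ) ^ t) ^ 2 / 3) := by
  have h3 : ∑ a with P a, p (j, a) ^ 2 ≤ s ^ 2 :=
    (sum_sq_le_sq_sum_of_nonneg fun a _ => p0 _).trans
      (pow_le_pow_left₀ (sum_nonneg fun a _ => p0 _) hs 2)
  refine le_trans ?_ (mul_le_mul h3 (geo4 t) (by positivity) (sq_nonneg _))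
  rw [sum_filter, sum_mul]
  refine sum_le_sum fun a _ => ?_
  split_ifs
  · rw [mul_sum]
    refine sum_le_sum fun r _ => ?_
    have := pow_le_pow_left₀ (md_nonneg d0 ((j, a), r)) (hp (j, a) r) 2
    rw [cf_sq]
    rw [pow_succ 2] at this
    nlinarith
  · simp

theorem conc_u2 [Nonempty J] (d0 : ∀ i x, 0 ≤ f (update x i true) - f (update x i false))
    (p0 : ∀ i, 0 ≤ p i) (hp : ∀ i r, md f (i, r) ≤ 2 ^ ((r : ℕ) + 1) * p i)
    (hu : ∀ j z, ∑ a with cl (j, a) = z, p (j, a) ≤ u z) (z : Z) :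
    ∑ i : (J × V) × Fin t with cl i.1 = z,
      cf f i ^ 2 / (Fintype.card J * ((2 : ℝ) ^ t) ^ 2) ≤ u z ^ 2 := by
  have hJ : (0 : ℝ) < Fintype.card J := Nat.cast_pos.2 Fintype.card_pos
  rw [← sum_div, div_le_iff₀ (by positivity), sum_filter, Fintype.sum_prod_type,
    Fintype.sum_prod_type]
  refine (sum_le_sum fun j _ => conc_row d0 p0 hp j (fun a => cl (j, a) = z) (hu j z)).trans ?_
  simp only [sum_const, card_univ, nsmul_eq_mul]
  have : 0 ≤ Fintype.card J * (u z ^ 2 * ((2 : ℝ) ^ t) ^ 2) := by positivity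
  nlinarith

theorem conc_s2 (hu : ∀ j z, ∑ a with cl (j, a) = z, p (j, a) ≤ u z) (u1 : ∑ z, u z ≤ 2) (j : J) :
    ∑ a, p (j, a) ≤ 2 := by
  rw [← sum_fiberwise univ fun a => cl (j, a)]
  exact (sum_le_sum fun z _ => hu j z).trans u1

/-- energy of a set of windows -/
theorem conc_win [Nonempty J] (d0 : ∀ i x, 0 ≤ f (update x i true) - f (update x i false))
    (p0 : ∀ i, 0 ≤ p i) (hp : ∀ i r, md f (i, r) ≤ 2 ^ ((r : ℕ) + 1) * p i)
    (hs : ∀ j, ∑ a, p (j, a) ≤ 2) (S : Finset J) :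
    ∑ i : (J × V) × Fin t with i.1.1 ∈ S, cf f i ^ 2 / (Fintype.card J * ((2 : ℝ) ^ t) ^ 2)
      ≤ 4 * #S / (3 * Fintype.card J) := by
  have hJ : (0 : ℝ) < Fintype.card J := Nat.cast_pos.2 Fintype.card_pos
  rw [← sum_div, div_le_iff₀ (by positivity), sum_filter, Fintype.sum_prod_type,
    Fintype.sum_prod_type]
  have h1 : ∀ j, ∑ a, ∑ r : Fin t, (if j ∈ S then cf f ((j, a), r) ^ 2 else 0)
      ≤ if j ∈ S then 2 ^ 2 * (((2 : ℝ) ^ t) ^ 2 / 3) else 0 := fun j => by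
    split_ifs
    · simpa using conc_row d0 p0 hp j (fun _ => True) (s := 2) (by simpa using hs j)
    · simp
  refine (sum_le_sum fun j _ => h1 j).trans (le_of_eq ?_)
  rw [sum_ite_mem, univ_inter, sum_const, nsmul_eq_mul]
  field_simp
  ring

/-- total energy -/
theorem conc_tot (d0 : ∀ i x, 0 ≤ f (update x i true) - f (update x i false))
    (d1 : ∀ i x, f (update x i true) - f (update x i false) ≤ 2 ^ (i.2 : ℕ))
    (hp : ∀ i r, md f (i, r) ≤ 2 ^ ((r : ℕ) + 1) * p i) (hs : ∀ j, ∑ a, p (j, a) ≤ 2) :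
    ∑ i, cf f i ^ 2 ≤ Fintype.card J * ((2 : ℝ) ^ t) ^ 2 / 3 := by
  have h1 := sum_cf_le d0 d1
  have h2 := conc_B hp hs
  linarith

/-- the spread is at most `2 ^ t * √n` -/
theorem conc_spread (d0 : ∀ i x, 0 ≤ f (update x i true) - f (update x i false))
    (d1 : ∀ i x, f (update x i true) - f (update x i false) ≤ 2 ^ (i.2 : ℕ))
    (hp : ∀ i r, md f (i, r) ≤ 2 ^ ((r : ℕ) + 1) * p i) (hs : ∀ j, ∑ a, p (j, a) ≤ 2) :
    𝔼 x, 𝔼 y, |f x - f y| ≤ 2 ^ t * √(Fintype.card J) := by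
  have h1 := var_le d0 d1
  have h2 := conc_B hp hs
  have h3 := spread_sq f
  refine abs_le_of_sq_le_sq' ?_ (by positivity) |>.2
  rw [mul_pow, Real.sq_sqrt (Nat.cast_nonneg _)]
  have : 0 ≤ Fintype.card J * ((2 : ℝ) ^ t) ^ 2 := by positivity
  nlinarith

/-- the move bound when the class maps agree outside a set of windows -/
theorem conc_move [Nonempty J] {cl' : J × V → Z} (S : Finset J)
    (hc : ∀ j ∉ S, ∀ a, cl (j, a) = cl' (j, a))
    (d0 : ∀ i x, 0 ≤ f (update x i true) - f (update x i false))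
    (d1 : ∀ i x, f (update x i true) - f (update x i false) ≤ 2 ^ (i.2 : ℕ))
    (p0 : ∀ i, 0 ≤ p i) (hp : ∀ i r, md f (i, r) ≤ 2 ^ ((r : ℕ) + 1) * p i)
    (hs : ∀ j, ∑ a, p (j, a) ≤ 2)
    (e0 : ∀ i x, 0 ≤ g (update x i true) - g (update x i false))
    (e1 : ∀ i x, g (update x i true) - g (update x i false) ≤ 2 ^ (i.2 : ℕ))
    (q0 : ∀ i, 0 ≤ q i) (hq : ∀ i r, md g (i, r) ≤ 2 ^ ((r : ℕ) + 1) * q i)
    (ht : ∀ j, ∑ a, q (j, a) ≤ 2) (h : ∀ x, |f x - g x| ≤ #S * 2 ^ t) :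
    ∑ z, |∑ i : (J × V) × Fin t with cl i.1 = z, cf f i ^ 2 / (Fintype.card J * ((2 : ℝ) ^ t) ^ 2)
      - ∑ i : (J × V) × Fin t with cl' i.1 = z, cf g i ^ 2 / (Fintype.card J * ((2 : ℝ) ^ t) ^ 2)|
      ≤ 2 * #S / √(3 * Fintype.card J) + 8 * #S / (3 * Fintype.card J) := by
  have hJ : (0 : ℝ) < Fintype.card J := Nat.cast_pos.2 Fintype.card_pos
  refine (class_move2 (fun i : (J × V) × Fin t => cl i.1) (fun i => cl' i.1) (fun i => i.1.1 ∈ S)
    (fun i hi => hc _ hi _) (fun _ => by positivity) fun _ => by positivity).trans ?_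
  have h1 := conc_win d0 p0 hp hs S
  have h2 := conc_win e0 q0 hq ht S
  have h3 := sq_move (by positivity) (by positivity) (cf_near h) (conc_tot d0 d1 hp hs)
    (conc_tot e0 e1 hq ht)
  have h4 : ∑ i : (J × V) × Fin t, |cf f i ^ 2 / (Fintype.card J * ((2 : ℝ) ^ t) ^ 2)
      - cf g i ^ 2 / (Fintype.card J * ((2 : ℝ) ^ t) ^ 2)| ≤ 2 * #S / √(3 * Fintype.card J) := by
    have N0 : (0 : ℝ) < Fintype.card J * ((2 : ℝ) ^ t) ^ 2 := by positivity
    simp only [← sub_div, abs_div, abs_of_pos N0, ← sum_div]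
    have s0 : 0 < √(3 * (Fintype.card J : ℝ)) := Real.sqrt_pos.2 (by positivity)
    have e : √(Fintype.card J * ((2 : ℝ) ^ t) ^ 2 / 3)
        = Fintype.card J * (2 : ℝ) ^ t / √(3 * (Fintype.card J : ℝ)) := by
      rw [Real.sqrt_eq_iff_mul_self_eq (by positivity) (by positivity), div_mul_div_comm,
        Real.mul_self_sqrt (by positivity)]
      field_simp
    rw [e] at h3
    rw [div_le_iff₀ N0]
    refine h3.trans (le_of_eq ?_)
    field_simp
  have : 8 * (#S : ℝ) / (3 * Fintype.card J)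
      = 4 * #S / (3 * Fintype.card J) + 4 * #S / (3 * Fintype.card J) := by ring
  linarith

theorem move_num {s n : ℕ} (hs : s ≤ 3) (hn : 2 ≤ n) :
    2 * (s : ℝ) / √(3 * n) + 8 * s / (3 * n) ≤ 10 / √n := by
  have h2 : (2 : ℝ) ≤ n := by exact_mod_cast hn
  have h3 : (s : ℝ) ≤ 3 := by exact_mod_cast hs
  have s0 : (0 : ℝ) ≤ s := Nat.cast_nonneg s
  obtain ⟨w, hw, w0⟩ : ∃ w : ℝ, w * w = n ∧ 0 < w :=
    ⟨√n, Real.mul_self_sqrt (by linarith), Real.sqrt_pos.2 (by linarith)⟩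
  have e : √(n : ℝ) = w := by rw [← hw, Real.sqrt_mul_self w0.le]
  have w1 : 7 / 5 ≤ w := by nlinarith
  have a1 : 3 / 2 * w ≤ √(3 * (n : ℝ)) := Real.le_sqrt_of_sq_le (by nlinarith)
  have a2 : 2 * (s : ℝ) / √(3 * n) ≤ 4 / w := by
    rw [div_le_div_iff₀ (by linarith) w0]
    nlinarith
  have a3 : 8 * (s : ℝ) / (3 * n) ≤ 6 / w := by
    rw [div_le_div_iff₀ (by linarith) w0, ← hw]
    nlinarith
  have : 10 / w = 4 / w + 6 / w := by ring
  rw [e]
  linarith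

end Conc

/-- the collision bound, class map depending on the window -/
theorem coll_conc2 {δ : ℝ} (hδ : 0 < δ) : ∃ c > 0, ∀ (J V Z : Type) [Fintype J] [DecidableEq J]
    [Nonempty J] [Fintype V] [DecidableEq V] [Fintype Z] [DecidableEq Z] (t : ℕ)
    (f : ((J × V) × Fin t → Bool) → ℝ) (cl : J × V → Z) (p : J × V → ℝ) (u : Z → ℝ),
    (∀ i x, 0 ≤ f (update x i true) - f (update x i false)) →
    (∀ i x, f (update x i true) - f (update x i false) ≤ 2 ^ (i.2 : ℕ)) →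
    (∀ i, 0 ≤ p i) → (∀ i r, md f (i, r) ≤ 2 ^ ((r : ℕ) + 1) * p i) →
    (∀ j z, ∑ a with cl (j, a) = z, p (j, a) ≤ u z) → ∑ z, u z ≤ 2 →
    δ * (2 ^ t * √(Fintype.card J)) ≤ 𝔼 x, 𝔼 y, |f x - f y| →
    c ≤ ∑ z, (∑ i : (J × V) × Fin t with cl i.1 = z,
      cf f i ^ 2 / (Fintype.card J * ((2 : ℝ) ^ t) ^ 2)) ^ 2 := by
  obtain ⟨c, c0, h⟩ := coll_abs hδ
  refine ⟨c, c0, fun J V Z _ _ _ _ _ _ _ t f cl p u d0 d1 p0 hp hu u1 hs => ?_⟩
  have hJ : (0 : ℝ) < Fintype.card J := Nat.cast_pos.2 Fintype.card_pos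
  obtain ⟨j⟩ := ‹Nonempty J›
  refine h _ Z f (fun i => 2 ^ (i.2 : ℕ)) (fun i => cl i.1) u _ (by positivity) d0 d1
    (conc_B hp (conc_s2 hu u1)) (fun z => (sum_nonneg fun a _ => p0 _).trans (hu j z)) u1
    (conc_u2 d0 p0 hp hu) ?_
  rwa [Real.sqrt_mul hJ.le, Real.sqrt_sq (by positivity), mul_comm (√_)]

end Pool.Agent.Lib.MP_a1e814_lc.Ds
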