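import Pool.Agent.Lib.MP_a1e814_lc.E.A12
import Pool.Agent.Lib.MP_a1e814_lc.E.A5p

/-! One configuration: energies, the collision bound and the move bound. -/

namespace Pool.Agent.Lib.MP_a1e814_lc.Kh

open Finset Function Pool.Agent.Lib.MP_a1e814_lc.Ds
open scoped BigOperators

variable {J V X Z : Type} [Fintype J] [DecidableEq J] [Fintype V] [DecidableEq V] [Fintype Z]
  [DecidableEq Z] {t : ℕ} {A : Set X} {y : J → X → V} {Φ : (J × V → ℕ) → ℝ}

theorem Rel1.win_le (h : Rel1 t A y Φ) (j : J) :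
    ∑ a, pp t Φ (j, a) ≤ 1 + (Fintype.card V : ℝ) ^ 2 / 2 ^ t := by
  have a1 := abs_le.1 (h.fib_le j univ)
  have a2 : 𝔼 w : (J × V) × Fin t → Bool, (Φ (val w + one (fib j univ)) - Φ (val w)) ≤ 1 :=
    expect_le univ_nonempty fun w _ => by
      have := h _ (val w) 1 (val_add_one_le w (fib j univ)) (fun k => (val_lt w k).le)
        fun x _ => by simp [GG_fib]
      push_cast at this
      linarith
  rw [card_univ] at a1
  linarith

theorem Rel1.marg' [Nonempty J] (h : Rel1 t A y Φ) (cl : J × V → Z)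
    (hcl : ∀ j j', ∀ x ∈ A, cl (j, y j x) = cl (j', y j' x))
    (hT : (2 * Fintype.card Z + 1) * Fintype.card V ^ 2 ≤ 2 ^ t) :
    ∃ u : Z → ℝ, (∀ j z, ∑ a with cl (j, a) = z, pp t Φ (j, a) ≤ u z) ∧ ∑ z, u z ≤ 2 := by
  obtain ⟨j0⟩ := ‹Nonempty J›
  have hc : ∀ S : Finset V, (#S : ℝ) ^ 2 / 2 ^ t ≤ (Fintype.card V : ℝ) ^ 2 / 2 ^ t := fun S =>
    div_le_div_of_nonneg_right (pow_le_pow_left₀ (Nat.cast_nonneg _)
      (Nat.cast_le.2 (card_le_univ S)) 2) (by positivity)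
  refine ⟨fun z => ∑ a with cl (j0, a) = z, pp t Φ (j0, a)
    + 2 * ((Fintype.card V : ℝ) ^ 2 / 2 ^ t), fun j z => ?_, ?_⟩
  · have a1 := abs_le.1 ((h.fib_le j {a | cl (j, a) = z}).trans (hc _))
    have a2 := abs_le.1 ((h.fib_le j0 {a | cl (j0, a) = z}).trans (hc _))
    have a3 : 𝔼 w : (J × V) × Fin t → Bool,
          (Φ (val w + one (fib j {a | cl (j, a) = z})) - Φ (val w))
        ≤ 𝔼 w : (J × V) × Fin t → Bool,
          (Φ (val w + one (fib j0 {a | cl (j0, a) = z})) - Φ (val w)) :=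
      expect_le_expect fun w _ => sub_le_sub_right (by
        simpa using h _ _ 0 (val_add_one_le w (fib j {a | cl (j, a) = z}))
          (val_add_one_le w (fib j0 {a | cl (j0, a) = z})) fun x hx => by
            simp [GG_fib, hcl j j0 x hx]) _
    linarith
  · have a1 := h.win_le j0
    have a4 : (2 * Fintype.card Z + 1) * ((Fintype.card V : ℝ) ^ 2 / 2 ^ t) ≤ 1 := by
      rw [← mul_div_assoc, div_le_one (by positivity)]
      exact_mod_cast hT
    rw [sum_add_distrib, sum_fiberwise univ fun a => cl (j0, a), sum_const, card_univ, nsmul_eq_mul]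
    linarith

/-- (A1) and (A2) in one statement -/
theorem Rel1.a12' [Nonempty J] (h : Rel1 t A y Φ) (cl : J × V → Z)
    (hcl : ∀ j j', ∀ x ∈ A, cl (j, y j x) = cl (j', y j' x))
    (hT : (2 * Fintype.card Z + 1) * Fintype.card V ^ 2 ≤ 2 ^ t) :
    (∀ (i : (J × V) × Fin t) (w : (J × V) × Fin t → Bool),
      0 ≤ Φ (val (update w i true)) - Φ (val (update w i false))) ∧
    (∀ (i : (J × V) × Fin t) (w : (J × V) × Fin t → Bool),
      Φ (val (update w i true)) - Φ (val (update w i false)) ≤ 2 ^ (i.2 : ℕ)) ∧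
    ∃ (p : J × V → ℝ) (u : Z → ℝ), (∀ i, 0 ≤ p i) ∧
      (∀ i (r : Fin t), 𝔼 w : (J × V) × Fin t → Bool,
        (Φ (val (update w (i, r) true)) - Φ (val (update w (i, r) false)))
          ≤ 2 ^ ((r : ℕ) + 1) * p i) ∧
      (∀ j z, ∑ a with cl (j, a) = z, p (j, a) ≤ u z) ∧ ∑ z, u z ≤ 2 := by
  obtain ⟨u, h1, h2⟩ := h.marg' cl hcl hT
  exact ⟨fun i w => (h.ml.d_bound w i.1 i.2).1, fun i w => (h.ml.d_bound w i.1 i.2).2,
    pp t Φ, u, h.ml.pp_nonneg, h.ml.d_le, h1, h2⟩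

theorem Rel1.win_two (h : Rel1 t A y Φ) (hT : Fintype.card V ^ 2 ≤ 2 ^ t) (j : J) :
    ∑ a, pp t Φ (j, a) ≤ 2 := by
  have a1 := h.win_le j
  have a4 : (Fintype.card V : ℝ) ^ 2 / 2 ^ t ≤ 1 := by
    rw [div_le_one (by positivity)]
    exact_mod_cast hT
  linarith

/-- normalised energy of a bit of an entry -/
noncomputable def en (t : ℕ) (Φ : (J × V → ℕ) → ℝ) (i : (J × V) × Fin t) : ℝ :=
  cf (fun w : (J × V) × Fin t → Bool => Φ (val w)) i ^ 2 / (Fintype.card J * ((2 : ℝ) ^ t) ^ 2)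

/-- energy of an entry, set to zero if the total is too large -/
noncomputable def En (t : ℕ) (Φ : (J × V → ℕ) → ℝ) (p : J × V) : ℝ :=
  if ∑ i, en t Φ i ≤ 1 then ∑ r, en t Φ (p, r) else 0

/-- energy of a class -/
noncomputable def FF (t : ℕ) (cl : J × V → Z) (Φ : (J × V → ℕ) → ℝ) (z : Z) : ℝ :=
  ∑ p with cl p = z, En t Φ p

/-- mean distance of two values -/
noncomputable def spr (t : ℕ) (Φ : (J × V → ℕ) → ℝ) : ℝ :=
  𝔼 w : (J × V) × Fin t → Bool, 𝔼 w' : (J × V) × Fin t → Bool, |Φ (val w) - Φ (val w')|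

theorem en_nonneg (Φ : (J × V → ℕ) → ℝ) (i : (J × V) × Fin t) : 0 ≤ en t Φ i := by
  unfold en; positivity

theorem En_nonneg (Φ : (J × V → ℕ) → ℝ) (p : J × V) : 0 ≤ En t Φ p := by
  unfold En
  split_ifs
  · exact sum_nonneg fun _ _ => en_nonneg _ _
  · exact le_rfl

theorem sum_En_le (Φ : (J × V → ℕ) → ℝ) : ∑ p, En t Φ p ≤ 1 := by
  unfold En
  split_ifs with h
  · rwa [Fintype.sum_prod_type] at h
  · simp

omit [Fintype Z] in
theorem FF_nonneg (cl : J × V → Z) (Φ : (J × V → ℕ) → ℝ) (z : Z) : 0 ≤ FF t cl Φ z :=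
  sum_nonneg fun _ _ => En_nonneg _ _

theorem sum_FF_le (cl : J × V → Z) (Φ : (J × V → ℕ) → ℝ) : ∑ z, FF t cl Φ z ≤ 1 := by
  unfold FF
  rw [sum_fiberwise]
  exact sum_En_le Φ

theorem sum_FF_mul (cl : J × V → Z) (Φ : (J × V → ℕ) → ℝ) (g : Z → ℝ) :
    ∑ z, FF t cl Φ z * g z = ∑ p, En t Φ p * g (cl p) := by
  unfold FF
  rw [← sum_fiberwise univ cl]
  refine sum_congr rfl fun z _ => ?_
  rw [sum_mul]
  exact sum_congr rfl fun p hp => by rw [(mem_filter.1 hp).2]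

omit [Fintype Z] in
theorem Rel1.FF_eq [Nonempty J] (h : Rel1 t A y Φ) (hT : Fintype.card V ^ 2 ≤ 2 ^ t)
    (cl : J × V → Z) (z : Z) : FF t cl Φ z = ∑ i : (J × V) × Fin t with cl i.1 = z, en t Φ i := by
  have hJ : (0 : ℝ) < Fintype.card J := Nat.cast_pos.2 Fintype.card_pos
  have h1 := conc_tot (f := fun w : (J × V) × Fin t → Bool => Φ (val w))
    (fun i w => (h.ml.d_bound w i.1 i.2).1) (fun i w => (h.ml.d_bound w i.1 i.2).2) h.ml.d_le
    (h.win_two hT)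
  have h2 : ∑ i, en t Φ i ≤ 1 := by
    unfold en
    rw [← sum_div, div_le_one (by positivity)]
    have : 0 ≤ Fintype.card J * ((2 : ℝ) ^ t) ^ 2 := by positivity
    linarith
  simp only [FF, En, if_pos h2, sum_filter, Fintype.sum_prod_type (f := fun i : (J × V) × Fin t =>
    if cl i.1 = z then en t Φ i else 0)]
  exact sum_congr rfl fun p _ => by split_ifs <;> simp

theorem Rel1.spr_le (h : Rel1 t A y Φ) (hT : Fintype.card V ^ 2 ≤ 2 ^ t) :
    spr t Φ ≤ 2 ^ t * √(Fintype.card J) :=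
  conc_spread (f := fun w : (J × V) × Fin t → Bool => Φ (val w))
    (fun i w => (h.ml.d_bound w i.1 i.2).1) (fun i w => (h.ml.d_bound w i.1 i.2).2) h.ml.d_le
    (h.win_two hT)

/-- a large spread gives a collision of the class energies -/
theorem coll {δ : ℝ} (hδ : 0 < δ) : ∃ c > 0, ∀ (J V X Z : Type) [Fintype J] [DecidableEq J]
    [Nonempty J] [Fintype V] [DecidableEq V] [Fintype Z] [DecidableEq Z] (t : ℕ) (A : Set X)
    (y : J → X → V) (Φ : (J × V → ℕ) → ℝ) (cl : J × V → Z), Rel1 t A y Φ →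
    (∀ j j', ∀ x ∈ A, cl (j, y j x) = cl (j', y j' x)) →
    (2 * Fintype.card Z + 1) * Fintype.card V ^ 2 ≤ 2 ^ t →
    δ * (2 ^ t * √(Fintype.card J)) ≤ spr t Φ → c ≤ ∑ z, FF t cl Φ z ^ 2 := by
  obtain ⟨c, c0, H⟩ := coll_conc2 hδ
  refine ⟨c, c0, fun J V X Z _ _ _ _ _ _ _ t A y Φ cl h hcl hT hs => ?_⟩
  obtain ⟨d0, d1, p, u, p0, hp, hu, u1⟩ := h.a12' cl hcl hT
  simp only [h.FF_eq (le_trans (Nat.le_mul_of_pos_left _ (Nat.succ_pos _)) hT)]
  exact H J V Z t (fun w => Φ (val w)) cl p u d0 d1 p0 hp hu u1 hs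

/-- the same as a linear bound of the spread -/
theorem spr_lin {δ : ℝ} (hδ : 0 < δ) : ∃ C > 0, ∀ (J V X Z : Type) [Fintype J] [DecidableEq J]
    [Nonempty J] [Fintype V] [DecidableEq V] [Fintype Z] [DecidableEq Z] (t : ℕ) (A : Set X)
    (y : J → X → V) (Φ : (J × V → ℕ) → ℝ) (cl : J × V → Z), Rel1 t A y Φ →
    (∀ j j', ∀ x ∈ A, cl (j, y j x) = cl (j', y j' x)) →
    (2 * Fintype.card Z + 1) * Fintype.card V ^ 2 ≤ 2 ^ t →
    spr t Φ ≤ (δ + C * ∑ z, FF t cl Φ z ^ 2) * (2 ^ t * √(Fintype.card J)) := by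
  obtain ⟨c, c0, H⟩ := coll hδ
  refine ⟨1 / c, by positivity, fun J V X Z _ _ _ _ _ _ _ t A y Φ cl h hcl hT => ?_⟩
  have s0 : 0 ≤ 1 / c * ∑ z, FF t cl Φ z ^ 2 :=
    mul_nonneg (by positivity) (sum_nonneg fun _ _ => sq_nonneg _)
  have q0 : (0 : ℝ) ≤ 2 ^ t * √(Fintype.card J) := by positivity
  rcases le_total (spr t Φ) (δ * (2 ^ t * √(Fintype.card J))) with h1 | h1
  · exact h1.trans (mul_le_mul_of_nonneg_right (by linarith) q0)
  · have h2 := H J V X Z t A y Φ cl h hcl hT h1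
    have h3 : 1 ≤ 1 / c * ∑ z, FF t cl Φ z ^ 2 := by
      rw [one_div, inv_mul_eq_div, le_div_iff₀ c0]; linarith
    refine (h.spr_le (le_trans (Nat.le_mul_of_pos_left _ (Nat.succ_pos _)) hT)).trans ?_
    exact le_mul_of_one_le_left q0 (by linarith)

/-- the order relation for a family of configurations -/
def RelF {T : Type} (t : ℕ) (A : Set X) (y : T → J → X → V) (Φ : T → (J × V → ℕ) → ℝ) : Prop :=
  ∀ (τ τ' : T) (c c' : J × V → ℕ) (μ : ℕ), (∀ k, c k ≤ 2 ^ t) → (∀ k, c' k ≤ 2 ^ t) →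
    (∀ x ∈ A, GG (y τ) c x ≤ GG (y τ') c' x + μ) → Φ τ c ≤ Φ τ' c' + μ

section Fam

variable {T : Type} {y : T → J → X → V} {Φ : T → (J × V → ℕ) → ℝ}

omit [DecidableEq J] [Fintype V] [DecidableEq V] in
theorem RelF.one (h : RelF t A y Φ) (τ : T) : Rel1 t A (y τ) (Φ τ) := h τ τ

omit [Fintype V] [DecidableEq V] in
theorem RelF.near (h : RelF t A y Φ) {τ τ' : T} (S : Finset J)
    (hy : ∀ j ∉ S, ∀ x ∈ A, y τ j x = y τ' j x) {c : J × V → ℕ} (hc : ∀ k, c k ≤ 2 ^ t) :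
    Φ τ c ≤ Φ τ' c + #S * 2 ^ t := by
  have := h τ τ' c c (#S * 2 ^ t) hc hc fun x hx => by
    calc GG (y τ) c x ≤ ∑ j, (c (j, y τ' j x) + if j ∈ S then 2 ^ t else 0) :=
          sum_le_sum fun j _ => by
            split_ifs with e
            · exact (hc _).trans (Nat.le_add_left _ _)
            · rw [hy j e x hx]; exact le_rfl
      _ = _ := by simp [sum_add_distrib, GG]
  exact_mod_cast this

/-- (A5'), two configurations that agree outside a set of windows -/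
theorem RelF.move [Nonempty J] (h : RelF t A y Φ) (hT : Fintype.card V ^ 2 ≤ 2 ^ t) {τ τ' : T}
    (S : Finset J) (hy : ∀ j ∉ S, ∀ x ∈ A, y τ j x = y τ' j x) {cl cl' : J × V → Z}
    (hc : ∀ j ∉ S, ∀ a, cl (j, a) = cl' (j, a)) :
    ∑ z, |FF t cl (Φ τ) z - FF t cl' (Φ τ') z|
      ≤ 2 * #S / √(3 * Fintype.card J) + 8 * #S / (3 * Fintype.card J) := by
  have a := h.one τ
  have b := h.one τ'
  simp only [a.FF_eq hT, b.FF_eq hT]
  refine conc_move (f := fun w : (J × V) × Fin t → Bool => Φ τ (val w))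
    (g := fun w : (J × V) × Fin t → Bool => Φ τ' (val w)) S hc
    (fun i w => (a.ml.d_bound w i.1 i.2).1) (fun i w => (a.ml.d_bound w i.1 i.2).2)
    a.ml.pp_nonneg a.ml.d_le (a.win_two hT)
    (fun i w => (b.ml.d_bound w i.1 i.2).1) (fun i w => (b.ml.d_bound w i.1 i.2).2)
    b.ml.pp_nonneg b.ml.d_le (b.win_two hT) fun w => ?_
  have h1 := h.near S hy fun k => (val_lt w k).le
  have h2 := h.near S (fun j e x hx => (hy j e x hx).symm) fun k => (val_lt w k).le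
  exact abs_le.2 ⟨by linarith, by linarith⟩

theorem RelF.move10 (h : RelF t A y Φ) (hT : Fintype.card V ^ 2 ≤ 2 ^ t)
    (hn : 2 ≤ Fintype.card J) {τ τ' : T} (S : Finset J) (hS : #S ≤ 3)
    (hy : ∀ j ∉ S, ∀ x ∈ A, y τ j x = y τ' j x) {cl cl' : J × V → Z}
    (hc : ∀ j ∉ S, ∀ a, cl (j, a) = cl' (j, a)) :
    ∑ z, |FF t cl (Φ τ) z - FF t cl' (Φ τ') z| ≤ 10 / √(Fintype.card J) :=
  haveI : Nonempty J := Fintype.card_pos_iff.1 (by omega)
  (h.move hT S hy hc).trans (move_num hS hn)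

end Fam

end Pool.Agent.Lib.MP_a1e814_lc.Kh
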