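import Pool.Agent.Lib.MP_a1e814_lc.DsJunta

/-! A weighted inequality of Talagrand type on the uniform cube. -/

set_option linter.unusedSectionVars false

namespace Pool.Agent.Lib.MP_a1e814_lc.Ds

open Finset Function
open scoped BigOperators

variable {ι : Type} [Fintype ι] [DecidableEq ι]

theorem tk_unif (g : Fn ι) : Ex (bern (1 / 2)) g = 𝔼 x, g x := by
  rw [← Ex_unif]
  congr 1
  funext b
  cases b <;> norm_num [bern]

theorem tk_prob : Prob (bern (1 / 2)) := prob_bern (by norm_num) (by norm_num)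

theorem tk_sparse {ρ w : ℝ} (r0 : 0 ≤ ρ) (r1 : ρ ≤ 1 / 4) {g s : Fn ι} (hw : ∀ x, s x ≤ w)
    (hg : ∀ x, |g x| ≤ s x) :
    ip (1 / 2) (nz (1 / 2) ρ univ.toList g) (nz (1 / 2) ρ univ.toList g) ^ 2
      ≤ (w * Ex (bern (1 / 2)) s) * Ex (bern (1 / 2)) s ^ 2 := by
  have hp := tk_prob
  set T := nz (1 / 2) ρ (univ : Finset ι).toList
  have a0 := ip_self_nonneg hp (T g)
  have s0 : ∀ x, 0 ≤ s x := fun x => (abs_nonneg _).trans (hg x)
  have m0 := Ex_nonneg hp s0
  have w0 : 0 ≤ w := (s0 fun _ => true).trans (hw _)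
  have a1 := hyper r0 r1 (by norm_num : (1 : ℝ) / 50 ≤ 1 / 2) (by norm_num) _ (nodup_toList univ)
    (T g) fun _ => true
  rw [toList_toFinset, cond_univ, cond_univ] at a1
  have a2 : ip (1 / 2) (T g) (T g)
      ≤ Ex (bern (1 / 2)) fun x => √(s x) * (√(s x) * |T (T g) x|) := by
    rw [← (sc_nz hp r0 (by linarith) _).adj]
    refine Ex_mono hp fun x => (le_abs_self _).trans ?_
    rw [← mul_assoc, Real.mul_self_sqrt (s0 x), abs_mul]
    exact mul_le_mul_of_nonneg_right (hg x) (abs_nonneg _)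
  have a3 := Ex_cs hp (fun x => √(s x)) fun x => √(s x) * |T (T g) x|
  have a4 := Ex_cs hp s fun x => T (T g) x ^ 2
  simp only [mul_pow, sq_abs, Real.sq_sqrt (s0 _), ← pow_mul] at a3 a4
  have a8 : Ex (bern (1 / 2)) (fun x => s x ^ 2) ≤ w * Ex (bern (1 / 2)) s := by
    rw [← Ex_mul]
    exact Ex_mono hp fun x => by nlinarith [s0 x, hw x]
  have e : (Ex (bern (1 / 2)) fun y => T g y ^ 2) = ip (1 / 2) (T g) (T g) := by simp only [ip, sq]
  rw [e] at a1
  have a9 := a4.trans (mul_le_mul a8 a1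
    (Ex_nonneg hp fun x => Even.pow_nonneg (by decide) _)
    (mul_nonneg w0 m0))
  have e2 : (Ex (bern (1 / 2)) fun x => s x) = Ex (bern (1 / 2)) s := rfl
  rw [e2] at a3
  generalize ip (1 / 2) (T g) (T g) = N at *
  generalize Ex (bern (1 / 2)) s = m at *
  have a5 := (pow_le_pow_left₀ a0 a2 2).trans a3
  have a6 := pow_le_pow_left₀ (sq_nonneg _) a5 2
  rw [mul_pow] at a6
  have a7 := a6.trans (mul_le_mul_of_nonneg_left a9 (sq_nonneg m))
  rcases a0.eq_or_lt with h | h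
  · rw [← h]
    have : 0 ≤ w * m * m ^ 2 := by positivity
    simpa using this
  · exact le_of_mul_le_mul_right (by nlinarith : N ^ 2 * N ^ 2 ≤ w * m * m ^ 2 * N ^ 2)
      (by positivity)

theorem tk_sub_av (f : Fn ι) (a : ι) (x : ι → Bool) :
    |(f - av (1 / 2) a f) x| = |dd a f x| / 2 := by
  rw [Pi.sub_apply, av_apply, dd_apply]
  have hx : f x = f (update x a (x a)) := by rw [update_eq_self]
  rw [hx]
  cases x a
  · rw [show f (update x a false) - ((1 - 1 / 2) * f (update x a false)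
      + 1 / 2 * f (update x a true)) = -((f (update x a true) - f (update x a false)) / 2) by ring,
      abs_neg, abs_div, abs_two]
  · rw [show f (update x a true) - ((1 - 1 / 2) * f (update x a false)
      + 1 / 2 * f (update x a true)) = (f (update x a true) - f (update x a false)) / 2 by ring,
      abs_div, abs_two]

theorem tk_mean (ρ : ℝ) (l : List ι) (g : Fn ι) :
    Ex (bern (1 / 2)) (nz (1 / 2) ρ l g) = Ex (bern (1 / 2)) g := by
  induction l with
  | nil => simp [nz]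
  | cons a l ih =>
    rw [nz_cons, Module.End.mul_apply, ns_app]
    have : (ρ • nz (1 / 2) ρ l g + (1 - ρ) • av (1 / 2) a (nz (1 / 2) ρ l g))
        = fun x => ρ * nz (1 / 2) ρ l g x + (1 - ρ) * av (1 / 2) a (nz (1 / 2) ρ l g) x := rfl
    rw [this, Ex_add, Ex_mul, Ex_mul]
    have e1 : (Ex (bern (1 / 2)) fun x => nz (1 / 2) ρ l g x) = Ex (bern (1 / 2)) g := ih
    have e2 : (Ex (bern (1 / 2)) fun x => av (1 / 2) a (nz (1 / 2) ρ l g) x)
        = Ex (bern (1 / 2)) g := (Ex_av tk_prob a _).trans ih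
    rw [e1, e2]
    ring

/-- the weighted inequality, in the language of the kit -/
theorem tk_main {v : ℝ} (hv : 0 < v) : ∃ κ > 0, ∀ (ι : Type) [Fintype ι] [DecidableEq ι]
    (g : Fn ι) (w : ι → ℝ) (B : ℝ), Ex (bern (1 / 2)) g = 0 → (∀ i x, 0 ≤ dd i g x) →
    (∀ i x, dd i g x ≤ w i) → ∑ i, w i * Ex (bern (1 / 2)) (dd i g) ≤ B →
    v * B ≤ ip (1 / 2) g g → κ * B ≤ ∑ i, Ex (bern (1 / 2)) (dd i g) ^ 2 := by
  have hp := tk_prob
  obtain ⟨ρ, r0, r1, r2⟩ : ∃ ρ : ℝ, 0 ≤ ρ ∧ ρ < 1 ∧ 1 - ρ ≤ 2 * v :=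
    ⟨1 - min 1 (2 * v), by linarith [min_le_left 1 (2 * v)],
      by linarith [lt_min one_pos (by linarith : 0 < 2 * v)], by linarith [min_le_right 1 (2 * v)]⟩
  obtain ⟨j, hj⟩ := exists_pow_lt_of_lt_one (by norm_num : (0 : ℝ) < 1 / 4) r1
  have r3 : ρ ^ 2 ^ j ≤ 1 / 4 :=
    (pow_le_pow_of_le_one r0 r1.le (Nat.lt_two_pow_self).le).trans hj.le
  have r4 : 0 ≤ ρ ^ 2 ^ j := by positivity
  refine ⟨(v * (1 / 4) ^ 2 ^ j) ^ 2, by positivity, fun ι _ _ g w B g0 d0 d1 hB hV => ?_⟩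
  have S0 : 0 ≤ ∑ i, Ex (bern (1 / 2)) (dd i g) ^ 2 := sum_nonneg fun _ _ => sq_nonneg _
  rcases le_or_gt B 0 with B0 | B0
  · exact (mul_nonpos_of_nonneg_of_nonpos (sq_nonneg _) B0).trans S0
  have N0 : 0 < ip (1 / 2) g g := (mul_pos hv B0).trans_le hV
  have b1 : ∀ a, ip (1 / 2) (g - av (1 / 2) a g) (g - av (1 / 2) a g)
      ≤ 1 / 4 * (w a * Ex (bern (1 / 2)) (dd a g)) := fun a => by
    rw [← Ex_mul, ← Ex_mul]
    refine Ex_mono hp fun x => ?_
    rw [← abs_mul_abs_self, tk_sub_av, abs_of_nonneg (d0 a x)]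
    nlinarith [d0 a x, d1 a x]
  have b2 := nz_near hp r0 r1.le g univ.toList
  rw [sum_map_toList, ip_sub] at b2
  have b3 : ∑ a, ip (1 / 2) (g - av (1 / 2) a g) (g - av (1 / 2) a g) ≤ 1 / 4 * B :=
    (sum_le_sum fun a _ => b1 a).trans (by rw [← mul_sum]; linarith)
  have b4 : ip (1 / 2) g g / 2 ≤ ip (1 / 2) g (nz (1 / 2) ρ univ.toList g) := by
    have := mul_le_mul r2 b3 (sum_nonneg fun a _ => ip_self_nonneg hp _) (by linarith)
    linarith
  have b5 := ip_cs hp g (nz (1 / 2) ρ univ.toList g)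
  have b6 : 1 / 4 * ip (1 / 2) g g
      ≤ ip (1 / 2) (nz (1 / 2) ρ univ.toList g) (nz (1 / 2) ρ univ.toList g) := by
    have := (pow_le_pow_left₀ (by linarith) b4 2).trans b5
    exact le_of_mul_le_mul_left (by nlinarith) N0
  have b7 := nz_pow hp univ.toList g j r0 r1.le
  set T := nz (1 / 2) (ρ ^ 2 ^ j) (univ : Finset ι).toList with hT
  have b8 : (1 / 4) ^ 2 ^ j * ip (1 / 2) g g ≤ ip (1 / 2) (T g) (T g) := by
    have h1 := mul_le_mul_of_nonneg_right (pow_le_pow_left₀ (by linarith) b6 (2 ^ j)) N0.le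
    have h2 := h1.trans b7
    rw [mul_pow, mul_comm ((1 / 4 : ℝ) ^ 2 ^ j), mul_assoc] at h2
    exact le_of_mul_le_mul_left h2 (by positivity)
  have b9 := poincare hp univ (T g)
  have c1 : cond (1 / 2) univ (T g) = 0 := by
    funext x
    rw [cond_univ, hT, tk_mean, g0]
    rfl
  rw [c1, sub_zero] at b9
  have c2 : ∀ a, T g - av (1 / 2) a (T g) = T (g - av (1 / 2) a g) := fun a => by
    rw [map_sub, ← Module.End.mul_apply (av (1 / 2) a),
      (comm_nz (fun b _ => av_comm a b) _).eq, Module.End.mul_apply]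
  simp only [c2] at b9
  have c3 : (∑ a, ip (1 / 2) (T (g - av (1 / 2) a g)) (T (g - av (1 / 2) a g))) ^ 2
      ≤ (∑ a, w a * Ex (bern (1 / 2)) (dd a g)) * ∑ a, Ex (bern (1 / 2)) (dd a g) ^ 2 := by
    refine sum_sq_le_sum_mul_sum_of_sq_le_mul _ (fun a _ => ?_) (fun a _ => sq_nonneg _)
      fun a _ => ?_
    · exact mul_nonneg ((d0 a fun _ => true).trans (d1 a _)) (Ex_nonneg hp (d0 a))
    · refine tk_sparse r4 r3 (d1 a) fun x => ?_
      rw [tk_sub_av, abs_of_nonneg (d0 a x)]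
      linarith [d0 a x]
  have c4 : v * (1 / 4) ^ 2 ^ j * B ≤ ip (1 / 2) (T g) (T g) := by
    refine le_trans ?_ b8
    rw [mul_comm v, mul_assoc]
    exact mul_le_mul_of_nonneg_left hV (by positivity)
  have c5 := ((pow_le_pow_left₀ (by positivity) (c4.trans b9) 2).trans c3).trans
    (mul_le_mul_of_nonneg_right hB S0)
  refine le_of_mul_le_mul_left ?_ B0
  calc B * ((v * (1 / 4) ^ 2 ^ j) ^ 2 * B) = (v * (1 / 4) ^ 2 ^ j * B) ^ 2 := by ring
    _ ≤ _ := c5

/-- the weighted inequality with uniform averages -/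
theorem talK {v : ℝ} (hv : 0 < v) : ∃ κ > 0, ∀ (ι : Type) [Fintype ι] [DecidableEq ι]
    (f : (ι → Bool) → ℝ) (w : ι → ℝ) (B : ℝ),
    (∀ i x, 0 ≤ f (update x i true) - f (update x i false)) →
    (∀ i x, f (update x i true) - f (update x i false) ≤ w i) →
    ∑ i, w i * (𝔼 x, (f (update x i true) - f (update x i false))) ≤ B →
    v * B ≤ 𝔼 x, (f x - 𝔼 y, f y) ^ 2 →
    κ * B ≤ ∑ i, (𝔼 x, (f (update x i true) - f (update x i false))) ^ 2 := by
  obtain ⟨κ, k0, h⟩ := tk_main hv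
  refine ⟨κ, k0, fun ι _ _ f w B d0 d1 hB hV => ?_⟩
  have e : ∀ i, dd i (fun x => f x - 𝔼 y, f y)
      = fun x => f (update x i true) - f (update x i false) := fun i => by
    funext x
    rw [dd_apply]
    ring
  have := h ι (fun x => f x - 𝔼 y, f y) w B
    (by rw [Ex_sub, Ex_const tk_prob, tk_unif, sub_self]) (fun i x => by rw [e]; exact d0 i x)
    (fun i x => by rw [e]; exact d1 i x) (by simpa only [e, tk_unif] using hB)
    (by simpa only [ip, tk_unif, sq] using hV)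
  simpa only [e, tk_unif] using this

end Pool.Agent.Lib.MP_a1e814_lc.Ds
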